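import Pool.Agent.J4.H26.Ev.Inv2
import Pool.Agent.J4.H26.Od.Main
import Pool.Agent.Y2.Cv.EvenH2

/-!
Comparison at the levels divisible by four.
-/

set_option autoImplicit false
set_option linter.unusedSectionVars false

namespace Pool.Agent.J4.H26.Ev

open Finset Pool.Agent.Y2 Pool.Agent.J4.H26.Od
open Pool.Agent.H916R2 hiding LL

/-- the setting, all levels -/
structure Set2 (q d m : ℕ) (A1 A2 : Multiset ℕ) : Prop where
  hq : q.Prime
  hqd : q * d = m
  hm : m ≠ 0
  hA : ∀ a ∈ A1, ¬ q ∣ a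
  hrel : ∀ t, Nat.Coprime t m → SW m A1 t + q * SW d A2 t = 0

namespace Set2

variable {q d m : ℕ} {A1 A2 : Multiset ℕ} (H : Set2 q d m A1 A2)

include H

lemma hd : d ≠ 0 := by
  have h1 := H.hqd
  have h2 := H.hm
  rintro rfl
  rw [mul_zero] at h1
  exact h2 h1.symm

lemma hinv : ∀ i t κ, Nat.Coprime t m → Nat.Coprime κ m → κ ≡ 1 [MOD d] →
    SW m A1 (q ^ i * (t * κ)) = SW m A1 (q ^ i * t) := by
  intro i t κ ht hκ hκd
  rcases Nat.eq_zero_or_pos i with rfl | hi
  · simp only [pow_zero, one_mul]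
    have h1 := H.hrel t ht
    have h2 := H.hrel (t * κ) (Nat.Coprime.mul_left ht hκ)
    have h3 : SW d A2 (t * κ) = SW d A2 t := by
      apply SW_congr
      have := hκd.mul_left t
      rwa [mul_one] at this
    rw [h3] at h2
    linarith
  · apply SW_congr
    obtain ⟨j, rfl⟩ : ∃ j, i = j + 1 := ⟨i - 1, by omega⟩
    have h1 := hκd.mul_left t
    have h2 := Nat.ModEq.mul_left' q h1
    rw [H.hqd] at h2
    have h3 := h2.mul_left (q ^ j)
    have e1 : q ^ (j + 1) * (t * κ) = q ^ j * (q * (t * κ)) := by ring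
    have e2 : q ^ (j + 1) * t = q ^ j * (q * (t * 1)) := by ring
    rw [e1, e2]
    exact h3

lemma neg : Set2 q d m (A1.map fun a => (m - 1) * a) (A2.map fun a => (d - 1) * a) := by
  have hm := H.hm
  have hd := H.hd
  have hNm : NeZero m := ⟨hm⟩
  have hNd : NeZero d := ⟨hd⟩
  have hqm : q ∣ m := Dvd.intro d H.hqd
  have hcop : ¬ q ∣ m - 1 := by
    intro h
    have h1 : q ∣ m - (m - 1) := Nat.dvd_sub hqm h
    have h2 : m - (m - 1) = 1 := by omega
    rw [h2] at h1
    exact H.hq.one_lt.ne' (Nat.dvd_one.mp h1)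
  have key : ∀ (e : ℕ) (_ : NeZero e) (B : Multiset ℕ) (t : ℕ),
      SW e (B.map fun a => (e - 1) * a) t = - SW e B t := by
    intro e he B t
    unfold Y2.SW
    rw [Multiset.map_map]
    apply sum_neg_map
    intro b _
    simp only [Function.comp_apply]
    rw [← saw_neg, ← neg_cast he.out]
    congr 2
    ring
  refine ⟨H.hq, H.hqd, H.hm, ?_, ?_⟩
  · intro a ha h
    obtain ⟨b, hb, rfl⟩ := Multiset.mem_map.mp ha
    rcases (Nat.Prime.dvd_mul H.hq).mp h with h | h
    · exact hcop h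
    · exact H.hA b hb h
  · intro t ht
    rw [key m hNm, key d hNd]
    have := H.hrel t ht
    linarith

lemma ctx_one (hqd : ¬ q ∣ d) (hq3 : 3 ≤ q) (hcard : 2 * Multiset.card A1 < q - 1) :
    Ctx2 q 1 d m A1 :=
  ⟨H.hq, hq3, H.hm, Nat.one_pos, by rw [pow_one]; exact H.hqd, hqd, H.hA,
    fun i t κ ht hκ h => H.hinv i t κ ht hκ (by simpa using h), by simpa [nm] using hcard⟩

end Set2

/-- the comparators -/
structure Cmp3 (q d m : ℕ) (B1 B2 : Multiset ℕ) : Prop where
  set : Set2 q d m B1 B2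
  kill : ∀ (Q : Type) [AddCommGroup Q] (C : ZMod m → Q), OddDist C → Cv.KillsC m C →
    (B1.map fun b : ℕ => C ((b : ℕ) : ZMod m)).sum +
      (B2.map fun b : ℕ => C ((q * b : ℕ) : ZMod m)).sum = 0

lemma cmp3_zero {q d m : ℕ} (hq : q.Prime) (hqd : q * d = m) (hm : m ≠ 0) : Cmp3 q d m 0 0 := by
  refine ⟨⟨hq, hqd, hm, fun a ha => absurd ha (Multiset.notMem_zero a), fun t _ => ?_⟩,
    fun Q _ C _ _ => by simp⟩
  simp [Y2.SW]

lemma Cmp3.neg {q d m : ℕ} {B1 B2 : Multiset ℕ} (h : Cmp3 q d m B1 B2) :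
    Cmp3 q d m (B1.map fun a => (m - 1) * a) (B2.map fun a => (d - 1) * a) := by
  have hd := h.set.hd
  have hm := h.set.hm
  refine ⟨h.set.neg, ?_⟩
  intro Q _ C hC hK
  have h1 := h.kill Q C hC hK
  rw [Multiset.map_map, Multiset.map_map]
  have e1 : (B1.map ((fun b : ℕ => C ((b : ℕ) : ZMod m)) ∘ fun a => (m - 1) * a)).sum =
      - (B1.map fun b : ℕ => C ((b : ℕ) : ZMod m)).sum := by
    apply sum_neg_map
    intro b _
    simp only [Function.comp_apply]
    rw [neg_cast hm, hC.neg]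
  have e2 : (B2.map ((fun b : ℕ => C ((q * b : ℕ) : ZMod m)) ∘ fun a => (d - 1) * a)).sum =
      - (B2.map fun b : ℕ => C ((q * b : ℕ) : ZMod m)).sum := by
    apply sum_neg_map
    intro b _
    simp only [Function.comp_apply]
    rw [neg_cast2 hd h.set.hqd, hC.neg]
  rw [e1, e2, ← neg_add, h1, neg_zero]

/-- the functional of a comparator of odd level -/
lemma lst_LL {q : ℕ} {E E0 : List ℕ} (h : Lst q E E0) (hq : q.Prime) {l m : ℕ}
    (hqm : q * (3 * l) = m) (hqd : ¬ q ∣ 3 * l) (hodd : m % 2 = 1) {J : Finset ℕ}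
    (hJ : IsJ q (3 * l) m J) {C : ℕ → ℤ} (hC : TD q m (PO q m) C)
    (hCo : ∀ x y, m ∣ x + y → C y = - C x) :
    2 * (((E : Multiset ℕ).map fun x => l * x).map C).sum = SJ J C (2 * l) := by
  have hm : m ≠ 0 := by rintro rfl; simp at hodd
  have hl : l ≠ 0 := by rintro rfl; simp at hqm; exact hm hqm.symm
  have Hb := Od.ctx_one (h.cmp hq hqm hqd hodd).set hqd (by
    rw [Multiset.card_map, Multiset.coe_card]; exact h.len)
  have hq1 : (2 : ℤ) ≤ q := by exact_mod_cast hq.two_le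
  rw [← Hb.LL_odd hCo]
  rcases Hb.trich hJ with h1 | ⟨l', hl', n', hn'⟩
  · exfalso
    have h7 := h1 _ Hb.Th_td
    rw [Hb.LL_Th, h.ths' l hl] at h7
    omega
  · have hll : l' = l := by omega
    subst hll
    have h7 := hn' _ Hb.Th_td
    rw [Hb.LL_Th, h.ths' l' hl, Hb.SJ_Th hJ hl'] at h7
    have h8 : n' = 1 := by
      have h9 : (n' - 1) * ((q : ℤ) - 1) = 0 := by linarith
      rcases mul_eq_zero.mp h9 with h9 | h9
      · omega
      · omega
    rw [hn' C hC, h8, one_mul]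

/-- restriction to a divisor of the level -/
lemma td_down {q m k m1 : ℕ} (hk : k * m1 = m) (hm : m ≠ 0) {C : ℕ → ℤ}
    (hC : TD q m (PO q m) C) : TD q m1 (PO q m1) (fun x => C (k * x)) := by
  refine ⟨?_, ?_, ?_⟩
  · intro x y hxy
    apply hC.per
    rw [← hk]
    exact Nat.ModEq.mul_left' k hxy
  · intro hqm1 n hn
    exact hC.supp (hqm1.trans (Dvd.intro_left _ hk)) _ (hn.mul_left k)
  · intro r hr n
    obtain ⟨hr1, hr2, hr3, _⟩ := mem_PO.mp hr
    have hrm : r ∈ PO q m := mem_PO.mpr ⟨hr1, hr2, hr3.trans (Dvd.intro_left _ hk), hm⟩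
    have h1 := hC.dist r hrm (k * n)
    have h2 : m / r = k * (m1 / r) := by rw [← hk, Nat.mul_div_assoc _ hr3]
    have h3 : k * (r * n) = r * (k * n) := by ring
    rw [h3, ← h1]
    refine sum_congr rfl fun i _ => ?_
    congr 1
    rw [h2]; ring

/-- the functional of a comparator -/
lemma lst_LL2 {q : ℕ} {E E0 : List ℕ} (h : Lst q E E0) (hq : q.Prime) (hq3 : 3 ≤ q) {l m : ℕ}
    (hqm : q * (3 * l) = m) (hqd : ¬ q ∣ 3 * l) (hm : m ≠ 0) {J : Finset ℕ}
    (hJ : IsJ q (3 * l) m J) {C : ℕ → ℤ} (hC : TD q m (PO q m) C)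
    (hCo : ∀ x y, m ∣ x + y → C y = - C x) :
    2 * (((E : Multiset ℕ).map fun x => l * x).map C).sum = - SJ J C l := by
  have hl0 : l ≠ 0 := by rintro rfl; simp at hqm; exact hm hqm.symm
  have hql : ¬ q ∣ l := fun h => hqd (h.mul_left 3)
  obtain ⟨f, l1, hl1, hl⟩ := Nat.exists_eq_two_pow_mul_odd hl0
  have hl1o : l1 % 2 = 1 := Nat.odd_iff.mp hl1
  have hqo : q % 2 = 1 := by
    rcases hq.eq_two_or_odd with h | h
    · omega
    · exact h
  have hkm : 2 ^ f * (q * (3 * l1)) = m := by rw [← hqm, hl]; ring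
  have hm1o : (q * (3 * l1)) % 2 = 1 := by
    rw [← Nat.odd_iff, Nat.odd_mul, Nat.odd_mul]
    exact ⟨Nat.odd_iff.mpr hqo, by decide, hl1⟩
  have hd1 : 3 * l1 ∣ 3 * l := by rw [hl]; exact Nat.mul_dvd_mul_left 3 (Dvd.intro_left _ rfl)
  have hJ1 : IsJ q (3 * l1) (q * (3 * l1)) J :=
    ⟨hJ.card, fun κ hκ => Nat.Coprime.coprime_dvd_right (Dvd.intro_left _ hkm) (hJ.cop κ hκ),
      fun κ hκ => (hJ.one κ hκ).of_dvd hd1, hJ.inj⟩
  have h1 := lst_LL h hq rfl (fun h => hqd (h.trans hd1)) hm1o hJ1 (td_down hkm hm hC)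
    (fun x y hxy => by
      apply hCo
      rw [← mul_add, ← hkm]
      exact Nat.mul_dvd_mul_left _ hxy)
  have h2 : (((E : Multiset ℕ).map fun x => l1 * x).map (fun x => C (2 ^ f * x))).sum =
      (((E : Multiset ℕ).map fun x => l * x).map C).sum := by
    rw [Multiset.map_map, Multiset.map_map]
    congr 1
    apply Multiset.map_congr rfl
    intro x _
    simp only [Function.comp_apply]
    congr 1
    rw [hl]; ring
  rw [h2] at h1
  rw [h1]
  have h3 : SJ J (fun x => C (2 ^ f * x)) (2 * l1) = SJ J C (2 * l) := by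
    unfold SJ
    refine sum_congr rfl fun κ _ => ?_
    change C (2 ^ f * (κ * (2 * l1))) = C (κ * (2 * l))
    congr 1
    rw [hl]; ring
  rw [h3]
  have HJ : JD q (3 * l) m J := ⟨hJ, hq, hm, hqm, hqd⟩
  have hq2l : ¬ q ∣ 2 * l := by
    intro h
    rcases (Nat.Prime.dvd_mul hq).mp h with h | h
    · have := Nat.le_of_dvd (by norm_num) h
      omega
    · exact hql h
  have h4 : SJ J C (2 * l) = SJ J C ((m - 1) * l) := by
    apply hJ.sum_eq hq hqm hqd hC.per hq2l (HJ.nq hql)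
    apply Nat.ModEq.add_left_cancel' l
    rw [HJ.m1s]
    refine ((Nat.modEq_zero_iff_dvd).mpr ?_).trans
      ((Nat.modEq_zero_iff_dvd).mpr (HJ.mm.mul_right _)).symm
    exact ⟨1, by ring⟩
  rw [h4]
  unfold SJ
  rw [← sum_neg_distrib]
  refine sum_congr rfl fun κ _ => ?_
  apply hCo
  have h5 : κ * l + κ * ((m - 1) * l) = m * (κ * l) := by
    rw [← mul_add, HJ.m1s]; ring
  rw [h5]
  exact Dvd.intro _ rfl

/-- the comparator at the levels divisible by six -/
lemma lst_cmp3 {q : ℕ} {E E0 : List ℕ} (h : Lst q E E0) (hq : q.Prime) {l m : ℕ}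
    (hqm : q * (3 * l) = m) (hqd : ¬ q ∣ 3 * l) (hm : m ≠ 0) (h2l : 2 ∣ l) :
    Cmp3 q (3 * l) m ((E : Multiset ℕ).map fun x => l * x) ((E0 : Multiset ℕ).map fun x => l * x) := by
  have hl : l ≠ 0 := by rintro rfl; simp at hqm; exact hm hqm.symm
  have hlm : l * (3 * q) = m := by rw [← hqm]; ring
  have hq0 : 3 * q ≠ 0 := by have := hq.pos; omega
  have hql : ¬ q ∣ l := fun h => hqd (h.mul_left 3)
  refine ⟨⟨hq, hqm, hm, ?_, ?_⟩, ?_⟩
  · intro a ha hqa
    obtain ⟨x, hx, rfl⟩ := Multiset.mem_map.mp ha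
    rcases (Nat.Prime.dvd_mul hq).mp hqa with h1 | h1
    · exact hql h1
    · exact h.ndq x hx h1
  · intro t ht
    have ht3 : Nat.Coprime t (3 * q) := Nat.Coprime.coprime_dvd_right (Dvd.intro_left l hlm) ht
    rw [SW_lmul hm hlm, SW_lmul (e := 3) (by omega : 3 * l ≠ 0) (mul_comm l 3)]
    have h1 := h.sw ht3
    rw [SW_add, SW_lmul hq0 (mul_comm q 3)] at h1
    linear_combination (l : ℤ) * h1
  · intro Q _ C hC hK
    obtain ⟨l', hl'⟩ := h2l
    have h1 := hK l' (2 * (3 * q)) (by rw [← hlm, hl']; ring) (by omega) h.good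
      (((E : Multiset ℕ) + ((E0 : Multiset ℕ).map fun x => q * x)).map fun x => 2 * x)
      (by
        intro t ht
        rw [SW_lmul (by omega : 2 * (3 * q) ≠ 0) rfl,
          h.sw (Nat.Coprime.coprime_dvd_right (Dvd.intro_left 2 rfl) ht), mul_zero])
    rw [Multiset.map_map, Multiset.map_add, Multiset.sum_add, Multiset.map_map] at h1
    rw [Multiset.map_map, Multiset.map_map, ← h1]
    congr 2
    · apply Multiset.map_congr rfl
      intro x _
      simp only [Function.comp_apply]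
      congr 2
      rw [hl']; ring
    · apply Multiset.map_congr rfl
      intro x _
      simp only [Function.comp_apply]
      congr 2
      rw [hl']; ring

lemma exists_lst2 {q : ℕ} (h : q ∈ ({5, 7, 11, 13, 17, 19} : Finset ℕ)) : ∃ E E0, Lst q E E0 := by
  simp only [mem_insert, mem_singleton] at h
  rcases h with rfl | rfl | rfl | rfl | rfl | rfl
  · exact ⟨_, _, lst5⟩
  · exact ⟨_, _, lst7⟩
  · exact ⟨_, _, lst11⟩
  · exact ⟨_, _, lst13⟩
  · exact ⟨_, _, lst17⟩
  · exact ⟨_, _, lst19⟩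

/-- **The comparator.** -/
lemma exists_cmp3 {K q d m : ℕ} {A1 A2 : Multiset ℕ} (H : Set2 q d m A1 A2) (h4 : 4 ∣ d)
    (hcard : Multiset.card A1 ≤ K) (hqK : 2 * K + 2 ≤ q) (hq5 : 5 ≤ q)
    (hC : 3 ∣ d → q ≤ 4 * K + 1 → q ∈ ({5, 7, 11, 13, 17, 19} : Finset ℕ)) :
    ∃ B1 B2, Cmp3 q d m B1 B2 ∧ Multiset.card B2 ≤ Multiset.card A1 ∧ Same q m A1 B1 := by
  have hq := H.hq
  have hm := H.hm
  obtain ⟨e, m', he, hmu, hqm', _⟩ := decomp hm hq (Dvd.intro d H.hqd)
  have hqm : q ^ (e + 1) * m' = m := hmu.symm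
  have hqd' : q ^ e * m' = d := by
    have h1 : q * (q ^ e * m') = q * d := by rw [H.hqd, ← hqm]; ring
    exact Nat.eq_of_mul_eq_mul_left hq.pos h1
  by_cases he0 : e = 0
  · -- exactly one factor `q`
    have hqd : ¬ q ∣ d := by
      rw [he0, pow_zero, one_mul] at hqd'
      rwa [← hqd']
    have Hc := H.ctx_one hqd (by omega) (by omega)
    obtain ⟨J, hJ⟩ := Hc.exists_IsJ
    obtain ⟨w, hw⟩ := h4
    rcases Hc.trich2 hJ hw.symm hq5 with h | ⟨l, hl, hcd, n, hn, hcmp⟩
    · refine ⟨0, 0, cmp3_zero hq H.hqd hm, by simp, ?_⟩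
      intro C hC hodd
      have h1 := h C hC
      rw [Hc.LL_odd hodd] at h1
      simp only [Multiset.map_zero, Multiset.sum_zero]
      linarith
    · have hmem := hC (Dvd.intro _ hl) (by omega)
      obtain ⟨E, E0, hE⟩ := exists_lst2 hmem
      have hl0 : l ≠ 0 := by rintro rfl; exact H.hd (by rw [← hl])
      have h2l : 2 ∣ l := by omega
      subst hl
      have hCmp := lst_cmp3 hE hq H.hqd hqd hm h2l
      have hcB : Multiset.card ((E0 : Multiset ℕ).map fun x => l * x) ≤ Multiset.card A1 := by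
        rw [Multiset.card_map, Multiset.coe_card]
        have := hE.len0
        omega
      rcases hn with rfl | rfl
      · refine ⟨_, _, hCmp.neg, by rw [Multiset.card_map]; exact hcB, ?_⟩
        intro C hC hodd
        have h1 := hcmp C hC
        rw [Hc.LL_odd hodd] at h1
        have h2 := lst_LL2 hE hq (by omega) H.hqd hqd hm hJ hC hodd
        have h3 : ((((E : Multiset ℕ).map fun x => l * x).map fun a => (m - 1) * a).map C).sum =
            - (((E : Multiset ℕ).map fun x => l * x).map C).sum := by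
          rw [Multiset.map_map]
          apply sum_neg_map
          intro b _
          simp only [Function.comp_apply]
          apply hodd
          rw [Hc.m1s]
          exact Dvd.intro _ rfl
        rw [h3]
        linarith
      · refine ⟨_, _, hCmp, hcB, ?_⟩
        intro C hC hodd
        have h1 := hcmp C hC
        rw [Hc.LL_odd hodd] at h1
        have h2 := lst_LL2 hE hq (by omega) H.hqd hqd hm hJ hC hodd
        linarith
  · -- `q` divides `d`
    have Hc : Ctx2 q (e + 1) m' m A1 :=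
      ⟨hq, by omega, hm, Nat.succ_pos e, hqm, hqm', H.hA, fun i t κ ht hκ h =>
        H.hinv i t κ ht hκ (by rw [← hqd']; simpa using h), by
        unfold nm
        rw [if_neg (by omega)]
        omega⟩
    refine ⟨0, 0, cmp3_zero hq H.hqd hm, by simp, ?_⟩
    intro C hC hodd
    have h1 := Hc.zero_of_k (by omega) hC
    rw [Hc.LL_odd hodd] at h1
    simp only [Multiset.map_zero, Multiset.sum_zero]
    linarith

end Pool.Agent.J4.H26.Ev
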