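import Pool.Agent.J4.H26.Ev.Sup2
import Pool.Agent.J4.H26.Od.Inv

/-!
Averages over the multipliers, as functions of the residue modulo `m'`.
-/

set_option autoImplicit false
set_option linter.unusedSectionVars false

namespace Pool.Agent.J4.H26.Ev

open Finset Pool.Agent.Y2 Pool.Agent.J4.H26.Od
open Pool.Agent.H916R2 hiding LL

/-- a representative prime to `q` -/
def rp (q m' : ℕ) (x : ZMod m') : ℕ := if q ∣ x.val then x.val + m' else x.val

/-- the average as a function on the residues modulo `m'` -/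
def GG (q m' : ℕ) (J : Finset ℕ) (C : ℕ → ℚ) (x : ZMod m') : ℚ := SJ J C (rp q m' x)

lemma rp_ndvd {q m' : ℕ} (hq' : ¬ q ∣ m') (x : ZMod m') : ¬ q ∣ rp q m' x := by
  unfold rp
  split_ifs with h
  · intro h1; exact hq' ((Nat.dvd_add_right h).mp h1)
  · exact h

lemma rp_cast {q m' : ℕ} [NeZero m'] (x : ZMod m') : ((rp q m' x : ℕ) : ZMod m') = x := by
  unfold rp
  split_ifs
  · push_cast; rw [ZMod.natCast_self, add_zero, ZMod.natCast_zmod_val]
  · exact ZMod.natCast_zmod_val x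

/-- the data of the multipliers -/
structure JD (q m' m : ℕ) (J : Finset ℕ) : Prop where
  hJ : IsJ q m' m J
  hq : q.Prime
  hm : m ≠ 0
  hqm : q * m' = m
  hqm' : ¬ q ∣ m'

namespace JD

variable {q m' m : ℕ} {J : Finset ℕ} (H : JD q m' m J)

include H

lemma hm' : m' ≠ 0 := by
  have h1 := H.hqm
  rintro rfl
  rw [mul_zero] at h1
  exact H.hm h1.symm

lemma mm : m' ∣ m := Dvd.intro_left _ H.hqm

lemma qm : q ∣ m := Dvd.intro _ H.hqm

lemma m1s (x : ℕ) : x + (m - 1) * x = m * x := by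
  have h1 : 1 ≤ m := Nat.one_le_iff_ne_zero.mpr H.hm
  obtain ⟨k, hk⟩ : ∃ k, m = k + 1 := ⟨m - 1, by omega⟩
  rw [hk]
  simp; ring

lemma m1c : Nat.Coprime (m - 1) m := by
  have h1 := Nat.coprime_self_sub_right (m := 1) (n := m) (Nat.one_le_iff_ne_zero.mpr H.hm)
  rw [Nat.coprime_comm]
  exact h1.mpr (Nat.coprime_one_right m)

lemma nq {b : ℕ} (hb : ¬ q ∣ b) : ¬ q ∣ (m - 1) * b := by
  intro h
  rcases (Nat.Prime.dvd_mul H.hq).mp h with h | h
  · have h4 : q ∣ Nat.gcd (m - 1) m := Nat.dvd_gcd h H.qm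
    rw [H.m1c] at h4
    exact H.hq.one_lt.ne' (Nat.dvd_one.mp h4)
  · exact hb h

lemma nq_add {b c : ℕ} (hb : ¬ q ∣ b) : ¬ q ∣ b + q * c := by
  intro h
  exact hb ((Nat.dvd_add_left (Dvd.intro _ rfl)).mp h)

lemma GG_nat {C : ℕ → ℚ} (hC : TD q m (PO q m) C) {n : ℕ} (hn : ¬ q ∣ n) :
    GG q m' J C (n : ZMod m') = SJ J C n := by
  have : NeZero m' := ⟨H.hm'⟩
  unfold GG
  apply H.hJ.sum_eq H.hq H.hqm H.hqm' hC.per (rp_ndvd H.hqm' _) hn
  rw [← ZMod.natCast_eq_natCast_iff, rp_cast]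

/-- the distribution relations of the averages -/
lemma SJ_dist {C : ℕ → ℚ} (hC : TD q m (PO q m) C) {r : ℕ} (hr : r ∈ PO q m) (b : ℕ) :
    ∑ i ∈ range r, SJ J C (b + i * (m / r)) = SJ J C (r * b) := by
  obtain ⟨hr1, hr2, hr3⟩ := PO_prime hr
  unfold SJ
  rw [sum_comm]
  refine sum_congr rfl fun κ hκ => ?_
  have h1 := hC.dist r hr (κ * b)
  have h2 : κ * (r * b) = r * (κ * b) := by ring
  rw [h2, ← h1]
  refine sum_congr rfl fun i _ => ?_
  apply hC.per
  rw [mul_add]
  apply Nat.ModEq.add_left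
  have hrm' : r ∣ m' := by
    rw [← H.hqm] at hr2
    rcases (Nat.Prime.dvd_mul hr1).mp hr2 with h | h
    · exact absurd ((Nat.prime_dvd_prime_iff_eq hr1 H.hq).mp h) hr3
    · exact h
  have hmr : m / r = q * (m' / r) := by rw [← H.hqm, Nat.mul_div_assoc _ hrm']
  have h3 : κ * (i * (m' / r)) ≡ 1 * (i * (m' / r)) [MOD m'] := (H.hJ.one κ hκ).mul_right _
  have h4 := Nat.ModEq.mul_left' q h3
  rw [H.hqm] at h4
  have e1 : q * (κ * (i * (m' / r))) = κ * (i * (m / r)) := by rw [hmr]; ring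
  have e2 : q * (1 * (i * (m' / r))) = i * (m / r) := by rw [hmr]; ring
  rw [e1, e2] at h4
  exact h4

lemma GG_dist {C : ℕ → ℚ} (hC : TD q m (PO q m) C) {p d : ℕ} (hp : p.Prime) (hpd : p * d = m')
    (a : ZMod m') : ∑ i ∈ range p, GG q m' J C (a + (i : ZMod m') * (d : ZMod m')) =
      GG q m' J C ((p : ZMod m') * a) := by
  have hN : NeZero m' := ⟨H.hm'⟩
  have hpm' : p ∣ m' := Dvd.intro _ hpd
  have hpq : p ≠ q := fun h => H.hqm' (h ▸ hpm')
  have hPO : p ∈ PO q m := mem_PO.mpr ⟨hpq, hp, hpm'.trans H.mm, H.hm⟩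
  have hmp : m / p = q * d := by
    rw [← H.hqm, ← hpd]
    rw [show q * (p * d) = p * (q * d) by ring]
    exact Nat.mul_div_cancel_left _ hp.pos
  set b := rp q m' a with hb
  have hqb : ¬ q ∣ b := rp_ndvd H.hqm' a
  have hba : ((b : ℕ) : ZMod m') = a := rp_cast a
  have hqpb : ¬ q ∣ p * b := by
    intro h
    rcases (Nat.Prime.dvd_mul H.hq).mp h with h | h
    · exact hpq ((Nat.prime_dvd_prime_iff_eq H.hq hp).mp h).symm
    · exact hqb h
  have h1 := H.SJ_dist hC hPO b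
  rw [hmp, ← H.GG_nat hC hqpb] at h1
  push_cast at h1
  rw [hba] at h1
  rw [← h1]
  have hper : ∀ x y : ℕ, x ≡ y [MOD m'] → GG q m' J C (x : ZMod m') = GG q m' J C (y : ZMod m') := by
    intro x y hxy
    rw [(ZMod.natCast_eq_natCast_iff _ _ _).mpr hxy]
  have h2 := coset_mul (C := fun n : ℕ => GG q m' J C (n : ZMod m')) hp.pos hpd hper (n := q)
    ((Nat.coprime_primes H.hq hp).mpr (Ne.symm hpq)) b
  have h3 : ∀ i ∈ range p, GG q m' J C (a + (i : ZMod m') * (d : ZMod m')) =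
      GG q m' J C ((b + i * d : ℕ) : ZMod m') := by
    intro i _
    push_cast
    rw [hba]
  rw [sum_congr rfl h3, ← h2]
  refine sum_congr rfl fun i _ => ?_
  have h4 : b + q * i * d = b + i * (q * d) := by ring
  rw [h4]
  apply H.GG_nat hC
  have h5 : b + i * (q * d) = b + q * (i * d) := by ring
  rw [h5]
  exact H.nq_add hqb

lemma GG_neg {C : ℕ → ℚ} (hC : TD q m (PO q m) C) (hodd : ∀ x y, m ∣ x + y → C y = - C x)
    (a : ZMod m') : GG q m' J C (-a) = - GG q m' J C a := by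
  have hN : NeZero m' := ⟨H.hm'⟩
  set b := rp q m' a with hb
  have hqb : ¬ q ∣ b := rp_ndvd H.hqm' a
  have hba : ((b : ℕ) : ZMod m') = a := rp_cast a
  have h1 : (((m - 1) * b : ℕ) : ZMod m') = -a := by
    have h2 : ((b + (m - 1) * b : ℕ) : ZMod m') = 0 := by
      rw [H.m1s, ZMod.natCast_eq_zero_iff]
      exact H.mm.mul_right b
    push_cast at h2 ⊢
    rw [hba] at h2 ⊢
    linear_combination h2
  rw [← h1, H.GG_nat hC (H.nq hqb)]
  change SJ J C ((m - 1) * b) = - SJ J C b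
  unfold SJ
  rw [← sum_neg_distrib]
  refine sum_congr rfl fun κ _ => ?_
  apply hodd
  have h3 : κ * b + κ * ((m - 1) * b) = m * (κ * b) := by
    rw [← mul_add, H.m1s]; ring
  rw [h3]
  exact Dvd.intro _ rfl

lemma GG_odd {C : ℕ → ℚ} (hC : TD q m (PO q m) C) (hodd : ∀ x y, m ∣ x + y → C y = - C x) :
    OddDist (GG q m' J C) := by
  refine ⟨H.GG_neg hC hodd, ?_, fun p d hp hpd a => H.GG_dist hC hp hpd a⟩
  intro a ha
  have h1 := H.GG_neg hC hodd a
  have h2 : -a = a := neg_eq_of_add_eq_zero_right ha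
  rw [h2] at h1
  linarith

/-- the element of order four -/
lemma GG_four {C : ℕ → ℚ} (hC : TD q m (PO q m) C) {w : ℕ} (hw : 4 * w = m') :
    GG q m' J C ((3 * w : ℕ) : ZMod m') = - GG q m' J C (w : ZMod m') := by
  have hN : NeZero m' := ⟨H.hm'⟩
  have h0 : ((4 * w : ℕ) : ZMod m') = 0 := by rw [hw]; exact ZMod.natCast_self m'
  push_cast at h0
  have h1 := H.GG_dist hC Nat.prime_two (show 2 * (2 * w) = m' by rw [← hw]; ring)
    (w : ZMod m')
  have h2 := H.GG_dist hC Nat.prime_two (show 2 * (2 * w) = m' by rw [← hw]; ring)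
    ((2 * w : ℕ) : ZMod m')
  rw [sum_range_succ, sum_range_one] at h1 h2
  push_cast at h1 h2 ⊢
  have e1 : (w : ZMod m') + 0 * (2 * (w : ZMod m')) = w := by ring
  have e2 : (w : ZMod m') + 1 * (2 * (w : ZMod m')) = 3 * w := by ring
  have e3 : 2 * (w : ZMod m') + 0 * (2 * (w : ZMod m')) = 2 * w := by ring
  have e4 : 2 * (w : ZMod m') + 1 * (2 * (w : ZMod m')) = 0 := by linear_combination h0
  have e5 : 2 * (2 * (w : ZMod m')) = 0 := by linear_combination h0
  rw [e1, e2] at h1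
  rw [e3, e4, e5] at h2
  linarith

/-- the element of order three -/
lemma GG_three {C : ℕ → ℚ} (hC : TD q m (PO q m) C) {l : ℕ} (hl : 3 * l = m') :
    GG q m' J C ((2 * l : ℕ) : ZMod m') = - GG q m' J C (l : ZMod m') := by
  have hN : NeZero m' := ⟨H.hm'⟩
  have h0 : ((3 * l : ℕ) : ZMod m') = 0 := by rw [hl]; exact ZMod.natCast_self m'
  push_cast at h0
  have h1 := H.GG_dist hC Nat.prime_three hl (l : ZMod m')
  rw [sum_range_succ, sum_range_succ, sum_range_one] at h1
  push_cast at h1 ⊢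
  have e1 : (l : ZMod m') + 0 * (l : ZMod m') = l := by ring
  have e2 : (l : ZMod m') + 1 * (l : ZMod m') = 2 * l := by ring
  have e3 : (l : ZMod m') + 2 * (l : ZMod m') = 0 := by linear_combination h0
  have e4 : 3 * (l : ZMod m') = 0 := by linear_combination h0
  rw [e1, e2, e3, e4] at h1
  linarith

/-- the values of the dual basis -/
lemma SJ_dual {b b' : ℕ} (hb : b ∈ BN q m) (hb' : b' ∈ BN q m) {D : ℕ → ℤ}
    (hD : ∀ x, IsB q m x → D x = if x % m = b' then 1 else 0) :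
    SJ J D b = if b ≡ b' [MOD m'] then 1 else 0 := by
  classical
  have hq := H.hq
  obtain ⟨hb1, hb2⟩ := mem_filter.mp hb
  obtain ⟨hb1', hb2'⟩ := mem_filter.mp hb'
  have hBs : ∀ κ ∈ J, IsB q m (κ * b) := by
    intro κ hκ
    refine ⟨?_, ?_⟩
    · intro h
      rcases (Nat.Prime.dvd_mul hq).mp h with h | h
      · exact H.hJ.ndvd hq H.qm hκ h
      · exact hb2.1 h
    · intro r hr
      have h1 := hb2.2 r hr
      obtain ⟨hr1, hr2, hr3⟩ := PO_prime hr
      unfold TT at h1 ⊢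
      have hrm' : r ^ (m.factorization r) ∣ m' := by
        have h2 : r ^ (m.factorization r) ∣ q * m' := by rw [H.hqm]; exact Nat.ordProj_dvd m r
        refine Nat.Coprime.dvd_of_dvd_mul_left ?_ h2
        exact Nat.Coprime.pow_left _ ((Nat.coprime_primes hr1 hq).mpr hr3)
      have h2 : (κ * b) % r ^ (m.factorization r) = b % r ^ (m.factorization r) := by
        have h3 := ((H.hJ.one κ hκ).mul_right b).of_dvd hrm'
        rw [one_mul] at h3
        exact h3
      rw [h2]; exact h1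
  have hlt : b' < m := mem_range.mp hb1'
  have hval : ∀ κ ∈ J, D (κ * b) = if κ * b ≡ b' [MOD m] then 1 else 0 := by
    intro κ hκ
    rw [hD _ (hBs κ hκ)]
    congr 1
    rw [eq_iff_iff]
    unfold Nat.ModEq
    rw [Nat.mod_eq_of_lt hlt]
  unfold SJ
  rw [sum_congr rfl hval]
  have hκ' : ∀ κ ∈ J, κ * b ≡ b [MOD m'] := by
    intro κ hκ
    have := (H.hJ.one κ hκ).mul_right b
    rwa [one_mul] at this
  split_ifs with h
  · -- exactly one multiplier
    obtain ⟨c, _, hc⟩ := Nat.exists_mul_mod_eq_of_coprime b'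
      (Nat.coprime_comm.mp ((Nat.Prime.coprime_iff_not_dvd hq).mpr hb2.1)) hq.ne_zero
    have hc' : b * c ≡ b' [MOD q] := hc
    have hqc : ¬ q ∣ c := by
      intro h1
      exact hb2'.1 ((hc'.dvd_iff dvd_rfl).mp (h1.mul_left b))
    obtain ⟨κ, hκ, hκc⟩ := H.hJ.surj hq H.qm hqc
    rw [Finset.sum_eq_single κ]
    · rw [if_pos]
      rw [← H.hqm]
      refine (Nat.modEq_and_modEq_iff_modEq_mul
        ((Nat.Prime.coprime_iff_not_dvd hq).mpr H.hqm')).mp ⟨?_, (hκ' κ hκ).trans h⟩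
      have h1 := hκc.mul_right b
      rw [mul_comm c b] at h1
      exact h1.trans hc'
    · intro κ2 hκ2 hne
      rw [if_neg]
      intro h1
      apply hne
      apply H.hJ.inj κ2 hκ2 κ hκ
      have h2 : κ2 * b ≡ b' [MOD q] := h1.of_dvd H.qm
      have h3 : κ * b ≡ b' [MOD q] := by
        have h4 := hκc.mul_right b
        rw [mul_comm c b] at h4
        exact h4.trans hc'
      exact Nat.ModEq.cancel_right_of_coprime
        ((Nat.Prime.coprime_iff_not_dvd hq).mpr hb2.1) (h2.trans h3.symm)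
    · intro h1; exact absurd hκ h1
  · apply sum_eq_zero
    intro κ hκ
    rw [if_neg]
    intro h1
    exact h ((hκ' κ hκ).symm.trans (h1.of_dvd H.mm))

end JD

/-- a basis element of prime power order -/
lemma exists_B {q m' m r j w : ℕ} (hq : q.Prime) (hm : m ≠ 0) (hqm : q * m' = m) (hqm' : ¬ q ∣ m')
    (hr : r.Prime) (hj : 0 < j) (hw : r ^ j * w = m') (hbig : r ^ (j - 1) + 1 < r ^ j)
    (hlt : r ^ j ≤ q) : ∃ y, ¬ r ∣ y ∧ y < r ^ j ∧ IsB q m (w * y) := by
  have hrm' : r ∣ m' := by rw [← hw]; exact (dvd_pow_self r hj.ne').mul_right w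
  have hrq : r ≠ q := fun h => hqm' (h ▸ hrm')
  have hm' : m' ≠ 0 := by rintro rfl; rw [mul_zero] at hqm; exact hm hqm.symm
  have hw0 : w ≠ 0 := by rintro rfl; rw [mul_zero] at hw; exact hm' hw.symm
  set a := w.factorization r with ha
  set w1 := w / r ^ a with hw1
  have hww : r ^ a * w1 = w := Nat.ordProj_mul_ordCompl_eq_self w r
  have hrw1 : ¬ r ∣ w1 := Nat.not_dvd_ordCompl hr hw0
  have hfac : m.factorization r = a + j := by
    rw [← hqm, ← hw, Nat.factorization_mul hq.ne_zero (mul_ne_zero (pow_ne_zero _ hr.ne_zero) hw0),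
      Nat.factorization_mul (pow_ne_zero _ hr.ne_zero) hw0, Finsupp.add_apply, Finsupp.add_apply,
      Nat.factorization_pow, Finsupp.smul_apply, Nat.Prime.factorization_self hr,
      Nat.factorization_eq_zero_of_not_dvd (fun h => hrq
        ((Nat.prime_dvd_prime_iff_eq hr hq).mp h)), zero_add, smul_eq_mul, mul_one, add_comm]
  clear_value a w1
  have hcop : Nat.Coprime w1 (r ^ j) :=
    Nat.Coprime.pow_right _ (Nat.coprime_comm.mp ((Nat.Prime.coprime_iff_not_dvd hr).mpr hrw1))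
  obtain ⟨y, hy, hyv⟩ := Nat.exists_mul_mod_eq_of_coprime (r ^ j - 1) hcop
    (pow_ne_zero _ hr.ne_zero)
  have hrj : r ∣ r ^ j := dvd_pow_self r hj.ne'
  have hval : (w1 * y) % r ^ j = r ^ j - 1 := by
    rw [hyv, Nat.mod_eq_of_lt]
    have : 0 < r ^ j := pow_pos hr.pos j
    omega
  have hry : ¬ r ∣ y := by
    intro h
    have h1 : r ∣ (w1 * y) % r ^ j := (Nat.dvd_mod_iff hrj).mpr (h.mul_left w1)
    rw [hval] at h1
    have h2 : r ∣ r ^ j - (r ^ j - 1) := Nat.dvd_sub hrj h1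
    have h3 : r ^ j - (r ^ j - 1) = 1 := by
      have : 0 < r ^ j := pow_pos hr.pos j
      omega
    rw [h3] at h2
    exact hr.one_lt.ne' (Nat.dvd_one.mp h2)
  refine ⟨y, hry, hy, ?_, ?_⟩
  · intro h
    rcases (Nat.Prime.dvd_mul hq).mp h with h | h
    · exact hqm' (h.trans (Dvd.intro_left _ hw))
    · have h1 : 0 < y := by
        rcases Nat.eq_zero_or_pos y with h0 | h0
        · exact absurd (h0 ▸ dvd_zero r) hry
        · exact h0
      have := Nat.le_of_dvd h1 h
      omega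
  · intro s hs
    obtain ⟨hs1, hs2, hs3⟩ := PO_prime hs
    unfold TT
    by_cases hsr : s = r
    · right
      have haj : a + j - 1 = a + (j - 1) := by omega
      rw [hsr, hfac, ← hww, mul_assoc, pow_add, Nat.mul_mod_mul_left, hval, haj, pow_add]
      apply Nat.mul_lt_mul_of_pos_left _ (pow_pos hr.pos a)
      omega
    · left
      have h1 : s ^ m.factorization s ∣ w := by
        have h2 : s ^ m.factorization s ∣ q * (r ^ j * w) := by
          rw [hw, hqm]; exact Nat.ordProj_dvd m s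
        have h3 : Nat.Coprime (s ^ m.factorization s) q :=
          Nat.Coprime.pow_left _ ((Nat.coprime_primes hs1 hq).mpr hs3)
        have h4 : Nat.Coprime (s ^ m.factorization s) (r ^ j) :=
          Nat.Coprime.pow _ _ ((Nat.coprime_primes hs1 hr).mpr hsr)
        exact h4.dvd_of_dvd_mul_left (h3.dvd_of_dvd_mul_left h2)
      exact Nat.mod_eq_zero_of_dvd (h1.mul_right y)

section tables

/-- odd distributions of level twelve -/
lemma coef12 (y : ZMod 12) : ∃ α β : ℤ, ∀ c : ZMod 12 → ℚ, OddDist c →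
    c y = α * c 3 + β * c 4 := by
  have key : ∀ c : ZMod 12 → ℚ, OddDist c → c 0 = 0 ∧ c 6 = 0 ∧ c 2 = 2 * c 4 ∧
      c 1 = c 3 + c 4 ∧ c 5 = c 3 - c 4 ∧ c 11 = - c 1 ∧ c 10 = - c 2 ∧ c 9 = - c 3 ∧
      c 8 = - c 4 ∧ c 7 = - c 5 := by
    intro c hc
    have n1 : c 11 = - c 1 := by rw [← hc.neg]; rfl
    have n2 : c 10 = - c 2 := by rw [← hc.neg]; rfl
    have n3 : c 9 = - c 3 := by rw [← hc.neg]; rfl
    have n4 : c 8 = - c 4 := by rw [← hc.neg]; rfl
    have n5 : c 7 = - c 5 := by rw [← hc.neg]; rfl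
    have h0 : c 0 = 0 := hc.half 0 (by decide)
    have h6 : c 6 = 0 := hc.half 6 (by decide)
    have d1 := hc.dist 2 6 Nat.prime_two (by norm_num) 1
    have d2 := hc.dist 2 6 Nat.prime_two (by norm_num) 2
    have d3 := hc.dist 3 4 Nat.prime_three (by norm_num) 1
    rw [sum_range_succ, sum_range_one] at d1 d2
    rw [sum_range_succ, sum_range_succ, sum_range_one] at d3
    have e1 : c 1 + c 7 = c 2 := d1
    have e2 : c 2 + c 8 = c 4 := d2
    have e3 : c 1 + c 5 + c 9 = c 3 := d3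
    rw [n5] at e1
    rw [n4] at e2
    rw [n3] at e3
    exact ⟨h0, h6, by linarith, by linarith, by linarith, n1, n2, n3, n4, n5⟩
  fin_cases y
  · exact ⟨0, 0, fun c hc => by
      obtain ⟨h0, h6, h2, h1, h5, n1, n2, n3, n4, n5⟩ := key c hc
      change c 0 = _; push_cast; linarith⟩
  · exact ⟨1, 1, fun c hc => by
      obtain ⟨h0, h6, h2, h1, h5, n1, n2, n3, n4, n5⟩ := key c hc
      change c 1 = _; push_cast; linarith⟩
  · exact ⟨0, 2, fun c hc => by
      obtain ⟨h0, h6, h2, h1, h5, n1, n2, n3, n4, n5⟩ := key c hc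
      change c 2 = _; push_cast; linarith⟩
  · exact ⟨1, 0, fun c hc => by
      change c 3 = _; push_cast; ring⟩
  · exact ⟨0, 1, fun c hc => by
      change c 4 = _; push_cast; ring⟩
  · exact ⟨1, -1, fun c hc => by
      obtain ⟨h0, h6, h2, h1, h5, n1, n2, n3, n4, n5⟩ := key c hc
      change c 5 = _; push_cast; linarith⟩
  · exact ⟨0, 0, fun c hc => by
      obtain ⟨h0, h6, h2, h1, h5, n1, n2, n3, n4, n5⟩ := key c hc
      change c 6 = _; push_cast; linarith⟩
  · exact ⟨-1, 1, fun c hc => by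
      obtain ⟨h0, h6, h2, h1, h5, n1, n2, n3, n4, n5⟩ := key c hc
      change c 7 = _; push_cast; linarith⟩
  · exact ⟨0, -1, fun c hc => by
      obtain ⟨h0, h6, h2, h1, h5, n1, n2, n3, n4, n5⟩ := key c hc
      change c 8 = _; push_cast; linarith⟩
  · exact ⟨-1, 0, fun c hc => by
      obtain ⟨h0, h6, h2, h1, h5, n1, n2, n3, n4, n5⟩ := key c hc
      change c 9 = _; push_cast; linarith⟩
  · exact ⟨0, -2, fun c hc => by
      obtain ⟨h0, h6, h2, h1, h5, n1, n2, n3, n4, n5⟩ := key c hc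
      change c 10 = _; push_cast; linarith⟩
  · exact ⟨-1, -1, fun c hc => by
      obtain ⟨h0, h6, h2, h1, h5, n1, n2, n3, n4, n5⟩ := key c hc
      change c 11 = _; push_cast; linarith⟩

/-- odd distributions of level four -/
lemma coef4 (y : ZMod 4) : ∃ α : ℤ, ∀ c : ZMod 4 → ℚ, OddDist c → c y = α * c 1 := by
  fin_cases y
  · exact ⟨0, fun c hc => by
      change c 0 = _
      rw [hc.half 0 (by decide)]; simp⟩
  · exact ⟨1, fun c hc => by
      change c 1 = _; push_cast; ring⟩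
  · exact ⟨0, fun c hc => by
      change c 2 = _
      rw [hc.half 2 (by decide)]; simp⟩
  · exact ⟨-1, fun c hc => by
      change c 3 = _
      have : c 3 = - c 1 := by rw [← hc.neg]; rfl
      rw [this]; push_cast; ring⟩

end tables

end Pool.Agent.J4.H26.Ev
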