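import Pool.Agent.J4.H26.Ev.Fol

/-!
The functional of a short invariant multiset, all levels divisible by four.
-/

set_option autoImplicit false
set_option linter.unusedSectionVars false

namespace Pool.Agent.J4.H26.Ev

open Finset Pool.Agent.Y2 Pool.Agent.J4.H26.Od
open Pool.Agent.H916R2 hiding LL

/-- the odd character modulo four -/
def chi4 (n : ℕ) : ℤ := if n % 4 = 1 then 1 else if n % 4 = 3 then -1 else 0

/-- the odd character modulo three -/
def chi3 (n : ℕ) : ℤ := if n % 3 = 1 then 1 else if n % 3 = 2 then -1 else 0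

lemma ld_chi4 {P : Finset ℕ} (hP : ∀ r ∈ P, r = 2) : LD P 4 chi4 := by
  refine ⟨?_, ?_, ?_⟩
  · intro x y hxy
    unfold Nat.ModEq at hxy
    unfold chi4
    rw [hxy]
  · intro x y hxy
    unfold chi4
    have h : (x % 4 + y % 4) % 4 = 0 := by omega
    split_ifs <;> omega
  · intro r hr n
    rw [hP r hr, sum_range_succ, sum_range_one]
    unfold chi4
    norm_num
    split_ifs <;> omega

lemma ld_chi3 {P : Finset ℕ} (hP : ∀ r ∈ P, r = 3) : LD P 3 chi3 := by
  refine ⟨?_, ?_, ?_⟩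
  · intro x y hxy
    unfold Nat.ModEq at hxy
    unfold chi3
    rw [hxy]
  · intro x y hxy
    unfold chi3
    have h : (x % 3 + y % 3) % 3 = 0 := by omega
    split_ifs <;> omega
  · intro r hr n
    rw [hP r hr, sum_range_succ, sum_range_succ, sum_range_one]
    unfold chi3
    norm_num
    split_ifs <;> omega

lemma SJ_cast {J : Finset ℕ} (D : ℕ → ℤ) (b : ℕ) :
    SJ J (fun x => ((D x : ℤ) : ℚ)) b = ((SJ J D b : ℤ) : ℚ) := by
  unfold SJ
  push_cast
  rfl

namespace JD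

variable {q m' m : ℕ} {J : Finset ℕ} (H : JD q m' m J)

include H

/-- the test functions -/
lemma exists_test (hq2 : q ≠ 2) {t w : ℕ} (htw : t * w = m') {χ : ℕ → ℤ}
    (hχ : LD (PO q (q ^ 1 * t)) t χ) (hχ1 : ∀ x, |χ x| ≤ 1)
    (hχ2 : ∀ x, χ x ≠ 0 → Nat.Coprime x t) (hχ3 : ∀ x, x ≡ 1 [MOD t] → χ x = 1) {B : ℚ}
    (hB : B = 2 ∨ (2 ∣ t ∧ B = 1)) :
    ∃ C : ℕ → ℚ, TD q m (PO q m) C ∧ GG q m' J C (w : ZMod m') = q - 1 ∧
      (∀ x, C x ≠ 0 → Nat.gcd x m ∣ w) ∧ ∀ x, |C x| ≤ B := by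
  have hq := H.hq
  have hw0 : w ≠ 0 := by rintro rfl; rw [mul_zero] at htw; exact H.hm' htw.symm
  have ht0 : t ≠ 0 := by rintro rfl; rw [zero_mul] at htw; exact H.hm' htw.symm
  have hqt : ¬ q ∣ t := fun h => H.hqm' (h.trans (Dvd.intro _ htw))
  have hqw : ¬ q ∣ w := fun h => H.hqm' (h.trans (Dvd.intro_left _ htw))
  have hM : q ^ 1 * t ≠ 0 := mul_ne_zero (pow_ne_zero _ hq.ne_zero) ht0
  have hqM : q ∣ q ^ 1 * t := (dvd_pow_self q one_ne_zero).mul_right t
  have hkM : w * (q ^ 1 * t) = m := by rw [← H.hqm, ← htw]; ring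
  have hTD0 := lift_td hq (e := 1) Nat.one_pos rfl hχ
  have hTD := hTD0.map (Int.castAddHom ℚ)
  set f0 : ℕ → ℚ := fun x => (Int.castAddHom ℚ) (if q ∣ x then (0 : ℤ) else χ x) with hf0
  have hf1 : ∀ x, |f0 x| ≤ 1 := by
    intro x
    simp only [hf0, Int.coe_castAddHom]
    split_ifs
    · simp
    · have := hχ1 x
      exact_mod_cast this
  have hsupp : ∀ x, f0 x ≠ 0 → Nat.gcd x (q ^ 1 * t) ∣ 1 := by
    intro x hx
    simp only [hf0, Int.coe_castAddHom] at hx
    have hqx : ¬ q ∣ x := by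
      intro h; rw [if_pos h] at hx; simp at hx
    rw [if_neg hqx] at hx
    have h1 := hχ2 x (by intro h; rw [h] at hx; simp at hx)
    have h2 : Nat.Coprime x (q ^ 1 * t) := by
      apply Nat.Coprime.mul_right _ h1
      apply Nat.Coprime.pow_right
      exact Nat.coprime_comm.mp ((Nat.Prime.coprime_iff_not_dvd hq).mpr hqx)
    rw [h2]
  have hI : ∀ κ ∈ ({1} : Multiset ℕ), Nat.Coprime κ w := by
    intro κ hκ
    rw [Multiset.mem_singleton] at hκ
    rw [hκ]; exact Nat.coprime_one_left w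
  have hb1 : ∀ x, (({1} : Multiset ℕ).map fun κ => |f0 (κ * x)|).sum ≤ 1 := by
    intro x
    rw [Multiset.map_singleton, Multiset.sum_singleton]
    exact hf1 _
  have hex : ∃ C' : ℕ → ℚ, TD q (w * (q ^ 1 * t)) (PO q (w * (q ^ 1 * t))) C' ∧
      (∀ x, C' (w * x) = f0 x) ∧
      (∀ x, C' x ≠ 0 → Nat.gcd x (w * (q ^ 1 * t)) ∣ w * 1) ∧
      (∀ x, (({1} : Multiset ℕ).map fun κ => |C' (κ * x)|).sum ≤ B) := by
    rcases hB with rfl | ⟨h2t, rfl⟩
    · have := exists_up2 hq hq2 w (q ^ 1 * t) hw0 hM hqM hqw f0 hTD 1 hsupp {1} hI 1 zero_le_one hb1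
      simpa using this
    · refine exists_up' hq w (q ^ 1 * t) hw0 hM hqM (fun r hr hrw => ?_) f0 hTD 1 hsupp {1} hI 1
        zero_le_one hb1
      refine ⟨fun h => hqw (h ▸ hrw), ?_⟩
      by_cases h2 : r = 2
      · right; rw [h2]; exact h2t.mul_left _
      · left; have := hr.two_le; omega
  obtain ⟨C', h1, h2, h3, h4⟩ := hex
  rw [hkM] at h1 h3
  refine ⟨C', h1, ?_, ?_, ?_⟩
  · rw [H.GG_nat h1 hqw]
    unfold SJ
    have h5 : ∀ κ ∈ J, C' (κ * w) = 1 := by
      intro κ hκ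
      rw [mul_comm, h2]
      simp only [hf0, Int.coe_castAddHom]
      rw [if_neg (H.hJ.ndvd hq H.qm hκ), hχ3 κ ((H.hJ.one κ hκ).of_dvd (Dvd.intro _ htw))]
      simp
    rw [sum_congr rfl h5, sum_const, H.hJ.card, nsmul_eq_mul, mul_one, Nat.cast_sub hq.one_le,
      Nat.cast_one]
  · intro x hx
    have := h3 x hx
    rwa [mul_one] at this
  · intro x
    have := h4 x
    rw [Multiset.map_singleton, Multiset.sum_singleton, one_mul] at this
    exact this

end JD

namespace Ctx2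

section general

variable {q k m' m : ℕ} {A : Multiset ℕ} (H : Ctx2 q k m' m A)

include H

lemma LL_expand_int {D : ℕ → ℕ → ℤ} (hD : ∀ b, TD q m (PO q m) (D b) ∧
    ∀ x, IsB q m x → D b x = if x % m = b then 1 else 0) {C : ℕ → ℤ} (hC : TD q m (PO q m) C) :
    LL m A C = ∑ b ∈ BN q m, C b * LL m A (D b) := by
  have h1 := H.LL_expand hD (hC.map (Int.castAddHom ℚ))
  have h2 : LL m A (fun x => ((C x : ℤ) : ℚ)) = ((LL m A C : ℤ) : ℚ) := LL_cast C
  change LL m A (fun x => ((C x : ℤ) : ℚ)) = _ at h1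
  rw [h2] at h1
  have h3 : ((LL m A C : ℤ) : ℚ) = ((∑ b ∈ BN q m, C b * LL m A (D b) : ℤ) : ℚ) := by
    rw [h1]; push_cast; rfl
  exact_mod_cast h3

/-- nothing if `k` is not one -/
theorem zero_of_k (hk : k ≠ 1) {C : ℕ → ℤ} (hC : TD q m (PO q m) C) : LL m A C = 0 := by
  obtain ⟨D, hD⟩ := H.exists_dual
  rw [H.LL_expand_int hD hC]
  apply sum_eq_zero
  intro b hb
  by_cases hn : LL m A (D b) = 0
  · rw [hn, mul_zero]
  · exact absurd (H.supp hD hb hn).1 hk

lemma LL_odd {C : ℕ → ℤ} (hC : ∀ x y, m ∣ x + y → C y = - C x) :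
    LL m A C = 2 * (A.map C).sum := by
  unfold Od.LL
  rw [← Multiset.sum_map_mul_left]
  congr 1
  apply Multiset.map_congr rfl
  intro a _
  rw [hC a ((m - 1) * a) (by rw [H.m1s]; exact Dvd.intro _ rfl)]
  ring

lemma LL_abs {C : ℕ → ℚ} {B : ℚ} (hB : ∀ x, |C x| ≤ B) :
    |LL m A C| ≤ 2 * B * Multiset.card A := by
  unfold Od.LL
  refine (abs_msum_le _ _).trans ?_
  have h3 : (A.map fun a => |C a - C ((m - 1) * a)|).sum ≤ (A.map fun _ => 2 * B).sum := by
    apply Multiset.sum_map_le_sum_map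
    intro a _
    refine (abs_sub _ _).trans ?_
    have h1 := hB a
    have h2 := hB ((m - 1) * a)
    linarith
  refine h3.trans ?_
  rw [Multiset.map_const', Multiset.sum_replicate, nsmul_eq_mul]
  linarith

end general

variable {q m' m : ℕ} {A : Multiset ℕ} (H : Ctx2 q 1 m' m A)

include H

lemma qm : q * m' = m := by
  have := H.hqm
  rwa [pow_one] at this

lemma exists_IsJ : ∃ J, IsJ q m' m J := by
  obtain ⟨J, h1, h2, h3⟩ := H.exists_J
  refine ⟨J, ?_, fun κ hκ => (h2 κ hκ).1, ?_, ?_⟩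
  · simpa [nm] using h1
  · intro κ hκ
    have := (h2 κ hκ).2
    simpa using this
  · intro κ hκ κ' hκ' h
    exact h3 κ hκ κ' hκ' (by simpa using h)

variable {J : Finset ℕ} (hJ : IsJ q m' m J)

include hJ

lemma jd : JD q m' m J := ⟨hJ, H.hq, H.hm, H.qm, H.hqm'⟩

lemma avgJ {D : ℕ → ℕ → ℤ} (hD : ∀ b, TD q m (PO q m) (D b) ∧
    ∀ x, IsB q m x → D b x = if x % m = b then 1 else 0) {C : ℕ → ℚ} (hC : TD q m (PO q m) C) :
    ((q : ℚ) - 1) * LL m A C = ∑ b ∈ BN q m, SJ J C b * ((LL m A (D b) : ℤ) : ℚ) := by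
  have h1 : ∀ κ ∈ J, LL m A C = ∑ b ∈ BN q m, C (κ * b) * ((LL m A (D b) : ℤ) : ℚ) := by
    intro κ hκ
    rw [← H.LL_inv_rat hC (hJ.cop κ hκ) (by simpa using hJ.one κ hκ)]
    exact H.LL_expand hD (hC.mul H.hPp (hJ.cop κ hκ))
  have h2 : (J.card : ℚ) * LL m A C =
      ∑ κ ∈ J, ∑ b ∈ BN q m, C (κ * b) * ((LL m A (D b) : ℤ) : ℚ) := by
    rw [← sum_congr rfl h1, sum_const, nsmul_eq_mul]
  rw [hJ.card, Nat.cast_sub H.hq.one_le, Nat.cast_one, sum_comm] at h2
  rw [h2]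
  refine sum_congr rfl fun b _ => ?_
  unfold SJ
  rw [sum_mul]

/-- the coefficients -/
lemma coef {D : ℕ → ℕ → ℤ} (hD : ∀ b, TD q m (PO q m) (D b) ∧
    ∀ x, IsB q m x → D b x = if x % m = b then 1 else 0) {w : ℕ} (hw : 4 * w = m') {b : ℕ}
    (hb : b ∈ BN q m) (hn : LL m A (D b) ≠ 0) :
    ∃ α β : ℤ, (¬ 3 ∣ m' → β = 0) ∧ ∀ C : ℕ → ℚ, TD q m (PO q m) C →
      (∀ x y, m ∣ x + y → C y = - C x) →
      SJ J C b = α * GG q m' J C (w : ZMod m') + β * GG q m' J C ((m' / 3 : ℕ) : ZMod m') := by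
  have HJ := H.jd hJ
  have hq := H.hq
  have hm' := HJ.hm'
  have hN : NeZero m' := ⟨hm'⟩
  have hqb : ¬ q ∣ b := (mem_filter.mp hb).2.1
  have h1 : m' ∣ b * 12 := by
    have h2 := (H.supp hD hb hn).2
    rw [← H.qm] at h2
    have h3 : q * m' ∣ q * (Nat.gcd b m * 12) := by
      have e : q * (Nat.gcd b m * 12) = Nat.gcd b m * (12 * q) := by ring
      rw [e, H.qm]; rw [H.qm] at h2; exact h2
    exact (Nat.dvd_of_mul_dvd_mul_left hq.pos h3).trans
      (Nat.mul_dvd_mul_right (Nat.gcd_dvd_left _ _) 12)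
  by_cases h3 : 3 ∣ m'
  · obtain ⟨u, hu⟩ : 12 ∣ m' := by
      have : 4 * 3 ∣ m' := Nat.Coprime.mul_dvd_of_dvd_of_dvd (by norm_num) (Dvd.intro _ hw) h3
      simpa using this
    have hwu : w = 3 * u := by omega
    have hlu : m' / 3 = 4 * u := by omega
    obtain ⟨y, hy⟩ : u ∣ b := by
      rw [hu, mul_comm b 12] at h1
      exact Nat.dvd_of_mul_dvd_mul_left (by norm_num) h1
    obtain ⟨α, β, h⟩ := coef12 (y : ZMod 12)
    refine ⟨α, β, fun h => absurd h3 h, fun C hC hodd => ?_⟩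
    have hum : u * 12 = m' := by rw [hu]; ring
    have h5 := h _ ((HJ.GG_odd hC hodd).comp_iota hum)
    have e1 : (iota u (y : ZMod 12) : ZMod m') = ((b : ℕ) : ZMod m') := by
      rw [iota_natCast hum, hy]
    have e2 : (iota u (3 : ZMod 12) : ZMod m') = ((w : ℕ) : ZMod m') := by
      have := iota_natCast hum 3
      rw [hwu, mul_comm 3 u]
      exact this
    have e3 : (iota u (4 : ZMod 12) : ZMod m') = ((m' / 3 : ℕ) : ZMod m') := by
      have := iota_natCast hum 4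
      rw [hlu, mul_comm 4 u]
      exact this
    rw [e1, e2, e3, HJ.GG_nat hC hqb] at h5
    exact h5
  · have h2 : m' ∣ b * 4 := by
      have h4 : Nat.Coprime m' 3 := by
        rw [Nat.coprime_comm, Nat.Prime.coprime_iff_not_dvd Nat.prime_three]; exact h3
      have e : b * 12 = b * 4 * 3 := by ring
      rw [e] at h1
      exact h4.dvd_of_dvd_mul_right h1
    obtain ⟨y, hy⟩ : w ∣ b := by
      rw [← hw, mul_comm b 4] at h2
      exact Nat.dvd_of_mul_dvd_mul_left (by norm_num) h2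
    obtain ⟨α, h⟩ := coef4 (y : ZMod 4)
    refine ⟨α, 0, fun _ => rfl, fun C hC hodd => ?_⟩
    have hwm : w * 4 = m' := by rw [← hw]; ring
    have h5 := h _ ((HJ.GG_odd hC hodd).comp_iota hwm)
    have e1 : (iota w (y : ZMod 4) : ZMod m') = ((b : ℕ) : ZMod m') := by
      rw [iota_natCast hwm, hy]
    have e2 : (iota w (1 : ZMod 4) : ZMod m') = ((w : ℕ) : ZMod m') := by
      have := iota_natCast hwm 1
      rw [mul_one] at this
      rw [← this]; norm_num
    rw [e1, e2, HJ.GG_nat hC hqb] at h5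
    rw [h5]; simp

/-- the functional in terms of two averages -/
lemma formula {w : ℕ} (hw : 4 * w = m') : ∃ P R : ℤ, (¬ 3 ∣ m' → R = 0) ∧
    ∀ C : ℕ → ℚ, TD q m (PO q m) C → ((q : ℚ) - 1) * LL m A C =
      P * GG q m' J C (w : ZMod m') + R * GG q m' J C ((m' / 3 : ℕ) : ZMod m') := by
  classical
  have HJ := H.jd hJ
  have hm' := HJ.hm'
  have hN : NeZero m' := ⟨hm'⟩
  obtain ⟨D, hD⟩ := H.exists_dual
  have hex : ∀ b : ℕ, ∃ α β : ℤ, (¬ 3 ∣ m' → β = 0) ∧ (b ∈ BN q m → LL m A (D b) ≠ 0 →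
      ∀ C : ℕ → ℚ, TD q m (PO q m) C → (∀ x y, m ∣ x + y → C y = - C x) →
      SJ J C b = α * GG q m' J C (w : ZMod m') + β * GG q m' J C ((m' / 3 : ℕ) : ZMod m')) := by
    intro b
    by_cases h : b ∈ BN q m ∧ LL m A (D b) ≠ 0
    · obtain ⟨α, β, h1, h2⟩ := H.coef hJ hD hw h.1 h.2
      exact ⟨α, β, h1, fun _ _ => h2⟩
    · exact ⟨0, 0, fun _ => rfl, fun h1 h2 => absurd ⟨h1, h2⟩ h⟩
  choose α β hβ hαβ using hex
  refine ⟨∑ b ∈ BN q m, α b * LL m A (D b), ∑ b ∈ BN q m, β b * LL m A (D b), ?_, ?_⟩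
  · intro h
    apply sum_eq_zero
    intro b _
    rw [hβ b h, zero_mul]
  have hoddC : ∀ C : ℕ → ℚ, TD q m (PO q m) C → (∀ x y, m ∣ x + y → C y = - C x) →
      ((q : ℚ) - 1) * LL m A C =
      ((∑ b ∈ BN q m, α b * LL m A (D b) : ℤ) : ℚ) * GG q m' J C (w : ZMod m') +
      ((∑ b ∈ BN q m, β b * LL m A (D b) : ℤ) : ℚ) * GG q m' J C ((m' / 3 : ℕ) : ZMod m') := by
    intro C hC hodd
    rw [H.avgJ hJ hD hC]
    push_cast
    rw [sum_mul, sum_mul, ← sum_add_distrib]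
    refine sum_congr rfl fun b hb => ?_
    by_cases hn : LL m A (D b) = 0
    · rw [hn]; simp
    · rw [hαβ b hb hn C hC hodd]; ring
  intro C hC
  -- the odd part
  set Cm : ℕ → ℚ := fun x => C x - C ((m - 1) * x) with hCm
  have hCmT : TD q m (PO q m) Cm := hC.sub (hC.mul H.hPp H.m1c)
  have hCmo : ∀ x y, m ∣ x + y → Cm y = - Cm x := by
    intro x y hxy
    have h1 := H.neg_modEq hxy
    have h2 : (m - 1) * y ≡ x [MOD m] := (h1.mul_left (m - 1)).trans (H.neg_neg_modEq x)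
    simp only [hCm]
    rw [hC.per _ _ h1, hC.per _ _ h2]
    ring
  have hLL : LL m A Cm = 2 * LL m A C := by
    unfold Od.LL
    rw [← Multiset.sum_map_mul_left]
    congr 1
    apply Multiset.map_congr rfl
    intro a _
    simp only [hCm]
    rw [hC.per _ _ (H.neg_neg_modEq a)]
    ring
  have hGG : ∀ x : ZMod m', GG q m' J Cm x = GG q m' J C x - GG q m' J C (-x) := by
    intro x
    set b := rp q m' x with hb
    have hqb : ¬ q ∣ b := rp_ndvd H.hqm' x
    have hba : ((b : ℕ) : ZMod m') = x := rp_cast x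
    have h1 : (((m - 1) * b : ℕ) : ZMod m') = -x := by
      have h2 : ((b + (m - 1) * b : ℕ) : ZMod m') = 0 := by
        rw [HJ.m1s, ZMod.natCast_eq_zero_iff]
        exact HJ.mm.mul_right b
      push_cast at h2 ⊢
      rw [hba] at h2 ⊢
      linear_combination h2
    rw [← h1, HJ.GG_nat hC (HJ.nq hqb)]
    change SJ J Cm b = SJ J C b - SJ J C ((m - 1) * b)
    unfold SJ
    rw [← sum_sub_distrib]
    refine sum_congr rfl fun κ _ => ?_
    simp only [hCm]
    congr 2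
    ring
  have h4w : GG q m' J Cm (w : ZMod m') = 2 * GG q m' J C (w : ZMod m') := by
    rw [hGG]
    have h1 : -(w : ZMod m') = ((3 * w : ℕ) : ZMod m') := by
      have h0 : ((4 * w : ℕ) : ZMod m') = 0 := by rw [hw]; exact ZMod.natCast_self m'
      push_cast at h0 ⊢
      linear_combination (-1 : ZMod m') * h0
    rw [h1, HJ.GG_four hC hw]; ring
  have h5 := hoddC Cm hCmT hCmo
  rw [hLL, h4w] at h5
  by_cases h3 : 3 ∣ m'
  · have hl : 3 * (m' / 3) = m' := Nat.mul_div_cancel' h3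
    have h3l : GG q m' J Cm ((m' / 3 : ℕ) : ZMod m') = 2 * GG q m' J C ((m' / 3 : ℕ) : ZMod m') := by
      rw [hGG]
      have h1 : -((m' / 3 : ℕ) : ZMod m') = ((2 * (m' / 3) : ℕ) : ZMod m') := by
        have h0 : ((3 * (m' / 3) : ℕ) : ZMod m') = 0 := by rw [hl]; exact ZMod.natCast_self m'
        rw [Nat.cast_mul] at h0 ⊢
        push_cast at h0 ⊢
        linear_combination (-1 : ZMod m') * h0
      rw [h1, HJ.GG_three hC hl]; ring
    rw [h3l] at h5
    linarith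
  · have h6 : (∑ b ∈ BN q m, β b * LL m A (D b) : ℤ) = 0 := by
      apply sum_eq_zero
      intro b _
      rw [hβ b h3, zero_mul]
    rw [h6] at h5 ⊢
    simp only [Int.cast_zero, zero_mul, add_zero] at h5 ⊢
    linarith

/-- **The functional**, at the levels divisible by four. -/
theorem trich2 {w : ℕ} (hw : 4 * w = m') (hq5 : 5 ≤ q) :
    (∀ C : ℕ → ℤ, TD q m (PO q m) C → LL m A C = 0) ∨
    ∃ l, 3 * l = m' ∧ q - 1 ≤ 4 * Multiset.card A ∧ ∃ n : ℤ, (n = 1 ∨ n = -1) ∧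
      ∀ C : ℕ → ℤ, TD q m (PO q m) C → LL m A C = n * SJ J C l := by
  classical
  have HJ := H.jd hJ
  have hq := H.hq
  have hm' := HJ.hm'
  have hN : NeZero m' := ⟨hm'⟩
  have hq2 : q ≠ 2 := by omega
  have hq1 : (0 : ℚ) < (q : ℚ) - 1 := by
    have : (5 : ℚ) ≤ q := by exact_mod_cast hq5
    linarith
  have hcard : (2 * Multiset.card A : ℤ) < (q : ℤ) - 1 := by
    have h5 := H.hcard
    unfold nm at h5
    rw [if_pos rfl] at h5
    omega
  obtain ⟨D, hD⟩ := H.exists_dual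
  obtain ⟨P, R, hR, hF⟩ := H.formula hJ hw
  have hw0 : w ≠ 0 := by rintro rfl; exact hm' (by rw [← hw])
  have hqw : ¬ q ∣ w := fun h => H.hqm' (h.trans (Dvd.intro_left _ hw))
  -- the basis element of level four
  obtain ⟨y4, hy4, hy4l, hB4⟩ := exists_B (r := 2) (j := 2) hq H.hm H.qm H.hqm' Nat.prime_two
    (by norm_num) (w := w) (by rw [← hw]; norm_num) (by norm_num) (by norm_num; omega)
  have hb4 := H.IsB_mod hB4
  set b4 := (w * y4) % m with hb4def
  have hcast : ∀ b : ℕ, TD q m (PO q m) (fun x => ((D b x : ℤ) : ℚ)) := fun b =>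
    (hD b).1.map (Int.castAddHom ℚ)
  have hb4q : ¬ q ∣ b4 := (mem_filter.mp hb4).2.1
  have hb4c : ((b4 : ℕ) : ZMod m') = ((w * y4 : ℕ) : ZMod m') := by
    rw [ZMod.natCast_eq_natCast_iff]
    exact (Nat.mod_modEq _ _).of_dvd HJ.mm
  have hy4' : y4 = 1 ∨ y4 = 3 := by
    have : y4 < 4 := by simpa using hy4l
    omega
  have hw4 : ∀ C : ℕ → ℚ, TD q m (PO q m) C → GG q m' J C ((b4 : ℕ) : ZMod m') =
      (if y4 = 1 then 1 else -1) * GG q m' J C (w : ZMod m') := by
    intro C hC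
    rw [hb4c]
    rcases hy4' with h | h
    · rw [h, mul_one]; simp
    · rw [h, mul_comm w 3, HJ.GG_four hC hw]; simp
  -- the test function of level four
  obtain ⟨f4, hf4, hf4w, hf4s, hf4b⟩ := HJ.exists_test hq2 (t := 4) hw (χ := chi4) (B := 1)
    (ld_chi4 (fun r hr => by
      obtain ⟨h1, h2, h3, _⟩ := mem_PO.mp hr
      rw [pow_one] at h3
      rcases (Nat.Prime.dvd_mul h2).mp h3 with h | h
      · exact absurd ((Nat.prime_dvd_prime_iff_eq h2 hq).mp h) h1
      · have h4 : r ∣ 2 ^ 2 := by simpa using h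
        exact (Nat.prime_dvd_prime_iff_eq h2 Nat.prime_two).mp (h2.dvd_of_dvd_pow h4)))
    (fun x => by unfold chi4; split_ifs <;> simp)
    (fun x hx => by
      have h1 : x % 2 = 1 := by
        unfold chi4 at hx
        split_ifs at hx <;> omega
      have h2 : Nat.Coprime x 2 := by
        rw [Nat.coprime_comm, Nat.Prime.coprime_iff_not_dvd Nat.prime_two]; omega
      have := Nat.Coprime.pow_right 2 h2
      simpa using this)
    (fun x hx => by
      unfold Nat.ModEq at hx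
      unfold chi4
      rw [if_pos (by omega)])
    (Or.inr ⟨by norm_num, rfl⟩)
  -- the values at the element of order three
  have hthree : ∀ l, 3 * l = m' → ∃ y3, ¬ 3 ∣ y3 ∧ y3 < 3 ∧ IsB q m (l * y3) := by
    intro l hl
    obtain ⟨y, h1, h2, h3⟩ := exists_B (r := 3) (j := 1) hq H.hm H.qm H.hqm' Nat.prime_three
      (by norm_num) (w := l) (by rw [← hl]; norm_num) (by norm_num) (by norm_num; omega)
    exact ⟨y, h1, by simpa using h2, h3⟩
  have hlval : ∀ l, 3 * l = m' → ∀ C : ℕ → ℚ, TD q m (PO q m) C → ∀ y3, (y3 = 1 ∨ y3 = 2) →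
      GG q m' J C ((l * y3 : ℕ) : ZMod m') =
      (if y3 = 1 then 1 else -1) * GG q m' J C (l : ZMod m') := by
    intro l hl C hC y3 hy
    rcases hy with h | h
    · rw [h, mul_one]; simp
    · rw [h, mul_comm l 2, HJ.GG_three hC hl]; simp
  have h12 : ∀ l, 3 * l = m' → ∃ u, m' = 12 * u ∧ w = 3 * u ∧ l = 4 * u ∧ u ≠ 0 := by
    intro l hl
    obtain ⟨u, hu⟩ : 12 ∣ m' := by
      have : 4 * 3 ∣ m' := Nat.Coprime.mul_dvd_of_dvd_of_dvd (by norm_num) (Dvd.intro _ hw)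
        (Dvd.intro _ hl)
      simpa using this
    refine ⟨u, hu, by omega, by omega, ?_⟩
    rintro rfl
    exact hm' hu
  have hD4l : ∀ l, 3 * l = m' →
      GG q m' J (fun x => ((D b4 x : ℤ) : ℚ)) (l : ZMod m') = 0 := by
    intro l hl
    obtain ⟨y3, h1, h2, h3⟩ := hthree l hl
    have hb3 := H.IsB_mod h3
    have hb3q : ¬ q ∣ (l * y3) % m := (mem_filter.mp hb3).2.1
    obtain ⟨u, hu, hwu, hlu, hu0⟩ := h12 l hl
    have hy3 : y3 = 1 ∨ y3 = 2 := by omega
    have h4 := HJ.SJ_dual hb3 hb4 (hD b4).2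
    rw [if_neg] at h4
    · have h5 : GG q m' J (fun x => ((D b4 x : ℤ) : ℚ)) (((l * y3) % m : ℕ) : ZMod m') = 0 := by
        rw [HJ.GG_nat (hcast b4) hb3q, SJ_cast, h4]; simp
      have h6 : (((l * y3) % m : ℕ) : ZMod m') = ((l * y3 : ℕ) : ZMod m') := by
        rw [ZMod.natCast_eq_natCast_iff]
        exact (Nat.mod_modEq _ _).of_dvd HJ.mm
      rw [h6, hlval l hl _ (hcast b4) y3 hy3] at h5
      rcases hy3 with h | h
      · rw [if_pos h, one_mul] at h5; exact h5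
      · rw [if_neg (by omega), neg_one_mul, neg_eq_zero] at h5; exact h5
    · intro hc
      have h5 : l * y3 ≡ w * y4 [MOD m'] :=
        ((Nat.mod_modEq _ _).of_dvd HJ.mm).symm.trans
          (hc.trans ((Nat.mod_modEq _ _).of_dvd HJ.mm))
      rw [hu, hwu, hlu] at h5
      have h6 : u * (4 * y3) ≡ u * (3 * y4) [MOD u * 12] := by
        have e1 : 4 * u * y3 = u * (4 * y3) := by ring
        have e2 : 3 * u * y4 = u * (3 * y4) := by ring
        rw [e1, e2, mul_comm 12 u] at h5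
        exact h5
      have h7 := Nat.ModEq.mul_left_cancel' hu0 h6
      unfold Nat.ModEq at h7
      omega
  have hRl : ∀ C : ℕ → ℚ, (∀ l, 3 * l = m' → GG q m' J C (l : ZMod m') = 0) →
      (R : ℚ) * GG q m' J C ((m' / 3 : ℕ) : ZMod m') = 0 := by
    intro C hC
    by_cases h3 : 3 ∣ m'
    · rw [hC _ (Nat.mul_div_cancel' h3), mul_zero]
    · rw [hR h3]; simp
  -- the coefficient of level four vanishes
  have hP : P = 0 := by
    have h1 := hF _ (hcast b4)
    rw [hRl _ hD4l, add_zero] at h1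
    have h2 : GG q m' J (fun x => ((D b4 x : ℤ) : ℚ)) ((b4 : ℕ) : ZMod m') = 1 := by
      rw [HJ.GG_nat (hcast b4) hb4q, SJ_cast, HJ.SJ_dual hb4 hb4 (hD b4).2, if_pos (Nat.ModEq.refl _)]
      simp
    rw [hw4 _ (hcast b4)] at h2
    rw [LL_cast (D b4)] at h1
    have h3 : (P : ℚ) = (if y4 = 1 then 1 else -1) * (((q : ℚ) - 1) * ((LL m A (D b4) : ℤ) : ℚ)) := by
      rw [h1]
      have e : ((if y4 = 1 then 1 else -1) : ℚ) * (P * GG q m' J (fun x => ((D b4 x : ℤ) : ℚ))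
          (w : ZMod m')) = P * ((if y4 = 1 then 1 else -1) *
          GG q m' J (fun x => ((D b4 x : ℤ) : ℚ)) (w : ZMod m')) := by ring
      rw [e, h2, mul_one]
    have h4 := hF f4 hf4
    have hf4l : ∀ l, 3 * l = m' → GG q m' J f4 (l : ZMod m') = 0 := by
      intro l hl
      obtain ⟨u, hu, hwu, hlu, hu0⟩ := h12 l hl
      have hql : ¬ q ∣ l := fun h => H.hqm' (h.trans (Dvd.intro_left _ hl))
      rw [HJ.GG_nat hf4 hql]
      unfold SJ
      apply sum_eq_zero
      intro κ _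
      by_contra hne
      have h5 := hf4s _ hne
      have h6 : l ∣ Nat.gcd (κ * l) m := Nat.dvd_gcd (Dvd.intro_left _ rfl)
        ((Dvd.intro_left _ hl).trans HJ.mm)
      have h7 := h6.trans h5
      rw [hwu, hlu] at h7
      have h8 := Nat.le_of_dvd (by omega) h7
      omega
    rw [hRl f4 hf4l, add_zero, hf4w] at h4
    have h5 : LL m A f4 = P := by
      have h6 : ((q : ℚ) - 1) * (LL m A f4 - P) = 0 := by linarith
      rcases mul_eq_zero.mp h6 with h7 | h7
      · linarith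
      · linarith
    have h6 := H.LL_abs hf4b
    rw [h5] at h6
    have h7 : |P| < (q : ℤ) - 1 := by
      have h8 : (|P| : ℤ) ≤ 2 * Multiset.card A := by
        have : ((|P| : ℤ) : ℚ) ≤ 2 * 1 * Multiset.card A := by push_cast; exact h6
        have h9 : ((|P| : ℤ) : ℚ) ≤ ((2 * Multiset.card A : ℕ) : ℚ) := by push_cast; linarith
        exact_mod_cast h9
      omega
    have h8 : ∃ n : ℤ, P = ((q : ℤ) - 1) * n := by
      rcases hy4' with h | h
      · refine ⟨LL m A (D b4), ?_⟩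
        rw [if_pos h, one_mul] at h3
        exact_mod_cast h3
      · refine ⟨- LL m A (D b4), ?_⟩
        rw [if_neg (by omega), neg_one_mul] at h3
        have : (P : ℚ) = ((q : ℚ) - 1) * ((-(LL m A (D b4)) : ℤ) : ℚ) := by
          rw [h3]; push_cast; ring
        exact_mod_cast this
    obtain ⟨n, hn⟩ := h8
    by_contra hne
    have hn0 : n ≠ 0 := by rintro rfl; rw [mul_zero] at hn; exact hne hn
    have h9 : (1 : ℤ) ≤ |n| := Int.one_le_abs hn0
    have h10 : (0 : ℤ) < (q : ℤ) - 1 := by omega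
    rw [hn, abs_mul, abs_of_pos h10] at h7
    nlinarith
  subst hP
  -- the coefficient of level three
  by_cases h3 : 3 ∣ m'
  swap
  · left
    intro C hC
    have h1 := hF _ (hC.map (Int.castAddHom ℚ))
    rw [hR h3] at h1
    change ((q : ℚ) - 1) * LL m A (fun x => ((C x : ℤ) : ℚ)) = _ at h1
    rw [LL_cast C] at h1
    simp only [Int.cast_zero, zero_mul, add_zero] at h1
    rcases mul_eq_zero.mp h1 with h2 | h2
    · linarith
    · exact_mod_cast h2
  obtain ⟨l, hl'⟩ := h3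
  have hl : 3 * l = m' := hl'.symm
  have hl3 : m' / 3 = l := by omega
  rw [hl3] at hF
  have hql : ¬ q ∣ l := fun h => H.hqm' (h.trans (Dvd.intro_left _ hl))
  obtain ⟨y3, hy3, hy3l, hB3⟩ := hthree l hl
  have hb3 := H.IsB_mod hB3
  set b3 := (l * y3) % m with hb3def
  have hb3q : ¬ q ∣ b3 := (mem_filter.mp hb3).2.1
  have hy3' : y3 = 1 ∨ y3 = 2 := by omega
  have hb3c : ((b3 : ℕ) : ZMod m') = ((l * y3 : ℕ) : ZMod m') := by
    rw [ZMod.natCast_eq_natCast_iff]
    exact (Nat.mod_modEq _ _).of_dvd HJ.mm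
  have hRn : ∃ n : ℤ, R = ((q : ℤ) - 1) * n := by
    have h1 := hF _ (hcast b3)
    have h2 : GG q m' J (fun x => ((D b3 x : ℤ) : ℚ)) ((b3 : ℕ) : ZMod m') = 1 := by
      rw [HJ.GG_nat (hcast b3) hb3q, SJ_cast, HJ.SJ_dual hb3 hb3 (hD b3).2, if_pos (Nat.ModEq.refl _)]
      simp
    rw [hb3c, hlval l hl _ (hcast b3) y3 hy3'] at h2
    rw [LL_cast (D b3)] at h1
    simp only [Int.cast_zero, zero_mul, zero_add] at h1
    rcases hy3' with h | h
    · rw [if_pos h, one_mul] at h2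
      rw [h2, mul_one] at h1
      refine ⟨LL m A (D b3), ?_⟩
      exact_mod_cast h1.symm
    · rw [if_neg (by omega), neg_one_mul] at h2
      have h4 : GG q m' J (fun x => ((D b3 x : ℤ) : ℚ)) (l : ZMod m') = -1 := by linarith
      rw [h4] at h1
      refine ⟨- LL m A (D b3), ?_⟩
      have : (R : ℚ) = ((q : ℚ) - 1) * ((-(LL m A (D b3)) : ℤ) : ℚ) := by
        push_cast; linarith
      exact_mod_cast this
  obtain ⟨n, hn⟩ := hRn
  have hfin : ∀ C : ℕ → ℤ, TD q m (PO q m) C → LL m A C = n * SJ J C l := by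
    intro C hC
    have h1 := hF _ (hC.map (Int.castAddHom ℚ))
    change ((q : ℚ) - 1) * LL m A (fun x => ((C x : ℤ) : ℚ)) = _ at h1
    rw [LL_cast C] at h1
    have h2 : GG q m' J (⇑(Int.castAddHom ℚ) ∘ C) (l : ZMod m') = ((SJ J C l : ℤ) : ℚ) := by
      rw [← SJ_cast]
      exact HJ.GG_nat (hC.map (Int.castAddHom ℚ)) hql
    have h3 : GG q m' J (fun n => (Int.castAddHom ℚ) (C n)) (l : ZMod m') =
        ((SJ J C l : ℤ) : ℚ) := h2
    rw [h3, hn] at h1
    simp only [Int.cast_zero, zero_mul, zero_add] at h1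
    have h4 : ((q : ℚ) - 1) * (((LL m A C : ℤ) : ℚ) - ((n * SJ J C l : ℤ) : ℚ)) = 0 := by
      push_cast at h1 ⊢
      linarith
    rcases mul_eq_zero.mp h4 with h5 | h5
    · linarith
    · have h6 : ((LL m A C : ℤ) : ℚ) = ((n * SJ J C l : ℤ) : ℚ) := by linarith
      exact_mod_cast h6
  by_cases hn0 : n = 0
  · left
    intro C hC
    rw [hfin C hC, hn0, zero_mul]
  right
  -- the bound
  obtain ⟨f3, hf3, hf3w, _, hf3b⟩ := HJ.exists_test hq2 (t := 3) hl (χ := chi3) (B := 2)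
    (ld_chi3 (fun r hr => by
      obtain ⟨h1, h2, h3, _⟩ := mem_PO.mp hr
      rw [pow_one] at h3
      rcases (Nat.Prime.dvd_mul h2).mp h3 with h | h
      · exact absurd ((Nat.prime_dvd_prime_iff_eq h2 hq).mp h) h1
      · exact (Nat.prime_dvd_prime_iff_eq h2 Nat.prime_three).mp h))
    (fun x => by unfold chi3; split_ifs <;> simp)
    (fun x hx => by
      have h1 : ¬ 3 ∣ x := by
        unfold chi3 at hx
        split_ifs at hx <;> omega
      rw [Nat.coprime_comm, Nat.Prime.coprime_iff_not_dvd Nat.prime_three]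
      exact h1)
    (fun x hx => by
      unfold Nat.ModEq at hx
      unfold chi3
      rw [if_pos (by omega)])
    (Or.inl rfl)
  have h4 := hF f3 hf3
  rw [hf3w] at h4
  simp only [Int.cast_zero, zero_mul, zero_add] at h4
  have h5 : LL m A f3 = R := by
    have h6 : ((q : ℚ) - 1) * (LL m A f3 - R) = 0 := by linarith
    rcases mul_eq_zero.mp h6 with h7 | h7
    · linarith
    · linarith
  have h6 := H.LL_abs hf3b
  rw [h5] at h6
  have h8 : (|R| : ℤ) ≤ 4 * Multiset.card A := by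
    have h9 : ((|R| : ℤ) : ℚ) ≤ ((4 * Multiset.card A : ℕ) : ℚ) := by push_cast; linarith
    exact_mod_cast h9
  have h10 : (0 : ℤ) < (q : ℤ) - 1 := by omega
  rw [hn, abs_mul, abs_of_pos h10] at h8
  have h9 : (1 : ℤ) ≤ |n| := Int.one_le_abs hn0
  have h11 : |n| = 1 := by
    by_contra hne
    have h12 : (2 : ℤ) ≤ |n| := by omega
    nlinarith
  refine ⟨l, hl, ?_, n, (abs_eq (by norm_num)).mp h11, hfin⟩
  rw [h11, mul_one] at h8
  omega

end Ctx2

end Pool.Agent.J4.H26.Ev
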