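import Pool.Agent.J4.H26.Ev.Cmp3

/-!
Hodge characters of even degree.
-/

set_option autoImplicit false
set_option linter.unusedSectionVars false

namespace Pool.Agent.J4.H26.Ev

open Finset Pool.Agent.Y2 Pool.Agent.J4.H26.Od
open Pool.Agent.H916R2 hiding LL

/-- a relation gives a setting -/
lemma mkSet2 {q d m : ℕ} (hq : q.Prime) (hqd : q * d = m) (hm : m ≠ 0) (A : Multiset ℕ)
    (hrel : ∀ t, Nat.Coprime t m → SW m A t = 0) :
    Set2 q d m (A.filter fun a => ¬ q ∣ a) ((A.filter fun a => q ∣ a).map fun a => a / q) := by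
  refine ⟨hq, hqd, hm, fun a ha => (Multiset.mem_filter.mp ha).2, fun t ht => ?_⟩
  have h1 := SW_decomp hqd hm A (fun a => q ∣ a) (fun a _ h => h) t
  rw [hrel t ht] at h1
  exact h1.symm

lemma split_sum1 {q m : ℕ} (A : Multiset ℕ) {Q : Type} [AddCommGroup Q] (C : ZMod m → Q) :
    (A.map fun a : ℕ => C ((a : ℕ) : ZMod m)).sum =
      ((A.filter fun a => ¬ q ∣ a).map fun a : ℕ => C ((a : ℕ) : ZMod m)).sum +
      (((A.filter fun a => q ∣ a).map fun a => a / q).map
        fun b : ℕ => C ((q * b : ℕ) : ZMod m)).sum := by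
  have h1 : A = A.filter (fun a => ¬ q ∣ a) + A.filter (fun a => q ∣ a) := by
    rw [add_comm]
    exact (Multiset.filter_add_not _ A).symm
  conv_lhs => rw [h1]
  rw [Multiset.map_add, Multiset.sum_add, Multiset.map_map]
  congr 2
  apply Multiset.map_congr rfl
  intro a ha
  simp only [Function.comp_apply]
  rw [Nat.mul_div_cancel' (Multiset.mem_filter.mp ha).2]

/-- **The vanishing of the sums**, degrees divisible by four. -/
theorem even4_zero {K d0 : ℕ} (hK : 1 ≤ K) (h4 : 4 ∣ d0) (hg : Cv.GoodDegree2 d0) : ∀ e0 : ℕ,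
    d0 * e0 ≠ 0 → (∀ q, q.Prime → q ∣ e0 → 2 * K + 2 ≤ q) →
    (3 ∣ d0 → ∀ q, q.Prime → q ∣ e0 → q ≤ 4 * K + 1 → q ∈ ({5, 7, 11, 13, 17, 19} : Finset ℕ)) →
    ∀ A : Multiset ℕ, Multiset.card A ≤ K →
    (∀ t, Nat.Coprime t (d0 * e0) → SW (d0 * e0) A t = 0) →
    ∀ (Q : Type) [AddCommGroup Q] (C : ZMod (d0 * e0) → Q), OddDist C → Cv.KillsC (d0 * e0) C →
      (A.map fun a : ℕ => C ((a : ℕ) : ZMod (d0 * e0))).sum = 0 := by
  intro e0
  induction e0 using Nat.strong_induction_on with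
  | _ e0 ih =>
  intro hm hbig hthree A hcard hrel Q _ C hC hKC
  by_cases he1 : e0 = 1
  · subst he1
    have h1 := hKC 1 (d0 * 1) (one_mul _) (by omega) (by rwa [mul_one]) A hrel
    simpa only [one_mul] using h1
  obtain ⟨q, hq, e1, he1'⟩ := Nat.exists_prime_and_dvd he1
  have hqe : q ∣ e0 := ⟨e1, he1'⟩
  have hqK := hbig q hq hqe
  have hq5 : 5 ≤ q := by
    have h1 : q ≠ 4 := by rintro rfl; revert hq; norm_num
    omega
  obtain ⟨m, hmdef⟩ : ∃ m, m = d0 * e0 := ⟨_, rfl⟩
  obtain ⟨d, hddef⟩ : ∃ d, d = d0 * e1 := ⟨_, rfl⟩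
  have hqd : q * d = m := by rw [hmdef, hddef, he1']; ring
  rw [← hmdef] at hm hrel
  have hN : NeZero m := ⟨hm⟩
  have hqm : q ∣ m := Dvd.intro d hqd
  have hd0 : d ≠ 0 := by rintro rfl; rw [mul_zero] at hqd; exact hm hqd.symm
  have he10 : e1 ≠ 0 := by rintro rfl; rw [mul_zero] at hddef; exact hd0 hddef
  have hlt : e1 < e0 := by
    rw [he1']
    have : 0 < e1 := Nat.pos_of_ne_zero he10
    nlinarith
  have hNd : NeZero d := ⟨hd0⟩
  have H := mkSet2 hq hqd hm A hrel
  have hc1 := card_split q A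
  have h4d : 4 ∣ d := by rw [hddef]; exact h4.mul_right e1
  have h3d : 3 ∣ d → 3 ∣ d0 := by
    intro h
    rw [hddef] at h
    rcases (Nat.Prime.dvd_mul Nat.prime_three).mp h with h | h
    · exact h
    · have := hbig 3 Nat.prime_three (h.trans (by rw [he1']; exact Dvd.intro_left _ rfl))
      omega
  obtain ⟨B1, B2, hB, hcB, hS⟩ := exists_cmp3 (K := K) H h4d (by omega) hqK hq5
    (fun h => hthree (h3d h) q hq hqe)
  have hfac := factor_pos hq hqm hm (by omega)
  subst hmdef
  have e1' : ((A.filter fun a => ¬ q ∣ a).map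
      fun a : ℕ => C ((a : ℕ) : ZMod (d0 * e0))).sum =
      (B1.map fun b : ℕ => C ((b : ℕ) : ZMod (d0 * e0))).sum :=
    hS.all hq hqm hm hfac H.hA hB.set.hA Q _ hC
  -- the relations of the other part
  have hlow : ∀ t, Nat.Coprime t d →
      SW d ((A.filter fun a => q ∣ a).map fun a => a / q) t = SW d B2 t := by
    intro t ht
    obtain ⟨t', ht', htt⟩ := lift_coprime (Dvd.intro_left q hqd) hm ht
    have h1 := H.hrel t' ht'
    have h2 := hB.set.hrel t' ht'
    rw [hS.SW hq hqm hm hfac H.hA hB.set.hA ht'] at h1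
    rw [← SW_congr _ htt, ← SW_congr _ htt]
    have hq0 : (q : ℤ) ≠ 0 := by exact_mod_cast hq.ne_zero
    apply mul_left_cancel₀ hq0
    linarith
  have hKd : Cv.KillsC d (fun b : ZMod d => C (iota q b)) := hKC.comp hqd
  have hCd : OddDist (fun b : ZMod d => C (iota q b)) := hC.comp_iota hqd
  subst hddef
  have h5 := ih e1 hlt hd0 (fun p hp hpe => hbig p hp (by rw [he1']; exact hpe.mul_left q))
    (fun h p hp hpe => hthree h p hp (by rw [he1']; exact hpe.mul_left q))
    (((A.filter fun a => q ∣ a).map fun a => a / q) + B2.map fun b => (d0 * e1 - 1) * b)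
    (by
      have h1 : Multiset.card (B2.map fun b => (d0 * e1 - 1) * b) = Multiset.card B2 :=
        Multiset.card_map _ _
      rw [Multiset.card_add, h1]; omega)
    (by
      intro t ht
      rw [SW_add, hlow t ht]
      have : SW (d0 * e1) (B2.map fun b => (d0 * e1 - 1) * b) t = - SW (d0 * e1) B2 t := by
        unfold Y2.SW
        rw [Multiset.map_map]
        apply sum_neg_map
        intro b _
        simp only [Function.comp_apply]
        rw [← saw_neg, ← neg_cast hd0]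
        congr 2
        ring
      rw [this, add_neg_cancel])
    Q _ hCd hKd
  have hcq : ∀ a : ℕ, C (iota q ((a : ℕ) : ZMod (d0 * e1))) =
      C ((q * a : ℕ) : ZMod (d0 * e0)) := by
    intro a
    rw [iota_natCast hqd]
  simp only [hcq] at h5
  rw [Multiset.map_add, Multiset.sum_add, Multiset.map_map (fun a : ℕ =>
    C ((q * a : ℕ) : ZMod (d0 * e0))) (fun b => (d0 * e1 - 1) * b)] at h5
  have e2 : (B2.map ((fun a : ℕ => C ((q * a : ℕ) : ZMod (d0 * e0))) ∘
      fun b => (d0 * e1 - 1) * b)).sum =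
      - (B2.map fun b : ℕ => C ((q * b : ℕ) : ZMod (d0 * e0))).sum := by
    apply sum_neg_map
    intro b _
    simp only [Function.comp_apply]
    rw [neg_cast2 hd0 hqd, hC.neg]
  rw [e2] at h5
  rw [split_sum1 (q := q), e1']
  have h6 := hB.kill Q C hC hKC
  have h7 : (((A.filter fun a => q ∣ a).map fun a => a / q).map
      fun b : ℕ => C ((q * b : ℕ) : ZMod (d0 * e0))).sum =
      (B2.map fun b : ℕ => C ((q * b : ℕ) : ZMod (d0 * e0))).sum := by
    rwa [← sub_eq_add_neg, sub_eq_zero] at h5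
  rw [h7]
  exact h6

/-- the pairs of odd primes of a good degree -/
lemma good_pairs {d p q : ℕ} (hg : Cv.GoodDegree2 d) (hp : p.Prime) (hq : q.Prime) (hp3 : 3 ≤ p)
    (hpq : p < q) (hpd : p ∣ d) (hqd : q ∣ d) :
    p * q ∈ ({15, 21, 33, 35, 39, 51, 57} : Finset ℕ) := by
  have aux : ∀ a b c : ℕ, (p = 2 ∨ p = a ∨ p = b ∨ p = c) → (q = 2 ∨ q = a ∨ q = b ∨ q = c) →
      (a * b ∈ ({15, 21, 33, 35, 39, 51, 57} : Finset ℕ) ∧
      a * c ∈ ({15, 21, 33, 35, 39, 51, 57} : Finset ℕ) ∧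
      b * c ∈ ({15, 21, 33, 35, 39, 51, 57} : Finset ℕ) ∧ a < b ∧ b < c) →
      p * q ∈ ({15, 21, 33, 35, 39, 51, 57} : Finset ℕ) := by
    rintro a b c (h1 | h1 | h1 | h1) (h2 | h2 | h2 | h2) ⟨h3, h4, h5, h6, h7⟩ <;>
      first
      | (exfalso; omega)
      | (rw [h1, h2]; first | exact h3 | exact h4 | exact h5)
  have aux2 : ∀ a b : ℕ, (p = 2 ∨ p = a ∨ p = b) → (q = 2 ∨ q = a ∨ q = b) →
      (a * b ∈ ({15, 21, 33, 35, 39, 51, 57} : Finset ℕ) ∧ a < b) →
      p * q ∈ ({15, 21, 33, 35, 39, 51, 57} : Finset ℕ) := by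
    rintro a b (h1 | h1 | h1) (h2 | h2 | h2) ⟨h3, h6⟩ <;>
      first
      | (exfalso; omega)
      | (rw [h1, h2]; exact h3)
  rcases hg with h | h | h | h | h | ⟨_, h | h | h⟩ | ⟨r, k, hr, h⟩
  · exact aux2 _ _ (h p hp hpd) (h q hq hqd) (by decide)
  · exact aux2 _ _ (h p hp hpd) (h q hq hqd) (by decide)
  · exact aux2 _ _ (h p hp hpd) (h q hq hqd) (by decide)
  · exact aux2 _ _ (h p hp hpd) (h q hq hqd) (by decide)
  · exact aux2 _ _ (h p hp hpd) (h q hq hqd) (by decide)
  · exact aux _ _ _ (h p hp hpd) (h q hq hqd) (by decide)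
  · exact aux2 _ _ (h p hp hpd) (h q hq hqd) (by decide)
  · exact aux2 _ _ (h p hp hpd) (h q hq hqd) (by decide)
  · exfalso
    have h1 : ∀ x, x.Prime → 3 ≤ x → x ∣ d → x = r := by
      intro x hx hx3 hxd
      rcases h with h | h
      · rw [h] at hxd
        exact (Nat.prime_dvd_prime_iff_eq hx hr).mp (hx.dvd_of_dvd_pow hxd)
      · rw [h] at hxd
        rcases (Nat.Prime.dvd_mul hx).mp hxd with h2 | h2
        · have := (Nat.prime_dvd_prime_iff_eq hx Nat.prime_two).mp h2
          omega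
        · exact (Nat.prime_dvd_prime_iff_eq hx hr).mp (hx.dvd_of_dvd_pow h2)
    have h2 := h1 p hp hp3 hpd
    have h3 := h1 q hq (by omega) hqd
    omega

/-- the condition for the odd part -/
lemma cond_two {K n e : ℕ} (hn : n % 2 = 1) (he : e % 2 = 1)
    (hg : Cv.GoodDegree2 (2 * n)) (hbig : ∀ q, q.Prime → q ∣ e → 2 * K + 2 ≤ q)
    (hthree : 3 ∣ 2 * n → ∀ q, q.Prime → q ∣ e → q ≤ 4 * K + 1 →
      q ∈ ({5, 7, 11, 13, 17, 19} : Finset ℕ)) : Cond (2 * K) (n * e) := by
  intro p q hp hq hpq hdv hc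
  have hpd : p ∣ n * e := (Dvd.intro _ rfl).trans hdv
  have hqd : q ∣ n * e := (Dvd.intro_left _ rfl).trans hdv
  have hodd : (n * e) % 2 = 1 := by
    rw [← Nat.odd_iff, Nat.odd_mul]; exact ⟨Nat.odd_iff.mpr hn, Nat.odd_iff.mpr he⟩
  have hp3 : 3 ≤ p := by
    have h1 : p ≠ 2 := by
      rintro rfl
      omega
    have := hp.two_le
    omega
  have hn2 : ∀ x, x ∣ n → x ∣ 2 * n := fun x hx => hx.mul_left 2
  have hsplit : ∀ x, x.Prime → x ∣ n * e → x ∣ n ∨ (x ∣ e ∧ 2 * K + 2 ≤ x) := by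
    intro x hx hxd
    rcases (Nat.Prime.dvd_mul hx).mp hxd with h | h
    · exact Or.inl h
    · exact Or.inr ⟨h, hbig x hx h⟩
  rcases hsplit p hp hpd with h1 | ⟨h1, h1'⟩ <;> rcases hsplit q hq hqd with h2 | ⟨h2, h2'⟩
  · exact good_pairs hg hp hq hp3 hpq (hn2 p h1) (hn2 q h2)
  · have hp3' : p = 3 ∧ q ≤ 4 * K + 1 := by omega
    obtain ⟨rfl, hq4⟩ := hp3'
    have h3 := hthree (hn2 3 h1) q hq h2 hq4
    simp only [mem_insert, mem_singleton] at h3 ⊢
    omega
  · exfalso; omega
  · exfalso; omega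

/-- reduction of twice an odd degree to the odd degree -/
lemma half_reduce {mo : ℕ} (hodd : mo % 2 = 1) {Q : Type} [AddCommGroup Q] {c : ZMod (2 * mo) → Q}
    (hc : OddDist c) (A : Multiset ℕ) :
    (A.map fun a : ℕ => c ((a : ℕ) : ZMod (2 * mo))).sum =
      ((((A.filter fun a => 2 ∣ a).map fun a => a / 2) + (A.filter fun a => ¬ 2 ∣ a) +
        ((A.filter fun a => ¬ 2 ∣ a).map fun a => (mo - 1) * ((a + mo) / 2))).map
        fun b : ℕ => c ((2 * b : ℕ) : ZMod (2 * mo))).sum := by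
  have hmo : mo ≠ 0 := by rintro rfl; simp at hodd
  have h1 : A = A.filter (fun a => 2 ∣ a) + A.filter (fun a => ¬ 2 ∣ a) :=
    (Multiset.filter_add_not _ A).symm
  conv_lhs => rw [h1]
  rw [Multiset.map_add, Multiset.sum_add, Multiset.map_add, Multiset.sum_add, Multiset.map_add,
    Multiset.sum_add, add_assoc]
  congr 1
  · rw [Multiset.map_map]
    congr 1
    apply Multiset.map_congr rfl
    intro a ha
    simp only [Function.comp_apply]
    rw [Nat.mul_div_cancel' (Multiset.mem_filter.mp ha).2]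
  · rw [Multiset.map_map, ← Multiset.sum_map_add]
    congr 1
    apply Multiset.map_congr rfl
    intro a ha
    simp only [Function.comp_apply]
    have h2 : 2 ∣ a + mo := by
      have := (Multiset.mem_filter.mp ha).2
      omega
    rw [neg_cast2 hmo rfl, hc.neg, Nat.mul_div_cancel' h2]
    have h3 := hc.dist 2 mo Nat.prime_two rfl ((a : ℕ) : ZMod (2 * mo))
    rw [sum_range_succ, sum_range_one] at h3
    push_cast at h3 ⊢
    rw [zero_mul, add_zero, one_mul] at h3
    rw [← h3]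
    abel

/-- **The vanishing of the sums**, twice an odd degree. -/
theorem even2_zero {K mo : ℕ} (hodd : mo % 2 = 1) (hCond : Cond (2 * K) mo) (A : Multiset ℕ)
    (hcard : Multiset.card A ≤ K) (hrel : ∀ t, Nat.Coprime t (2 * mo) → SW (2 * mo) A t = 0)
    (Q : Type) [AddCommGroup Q] (C : ZMod (2 * mo) → Q) (hC : OddDist C) (hK : Kills2 mo C) :
    (A.map fun a : ℕ => C ((a : ℕ) : ZMod (2 * mo))).sum = 0 := by
  have hmo : mo ≠ 0 := by rintro rfl; simp at hodd
  have hm : 2 * mo ≠ 0 := by omega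
  have hN : NeZero (2 * mo) := ⟨hm⟩
  have hNo : NeZero mo := ⟨hmo⟩
  rw [half_reduce hodd hC A]
  set A' := ((A.filter fun a => 2 ∣ a).map fun a => a / 2) + (A.filter fun a => ¬ 2 ∣ a) +
    ((A.filter fun a => ¬ 2 ∣ a).map fun a => (mo - 1) * ((a + mo) / 2)) with hA'
  have hrel' : ∀ t, Nat.Coprime t mo → SW mo A' t = 0 := by
    intro t ht
    obtain ⟨t', ht', htt⟩ := lift_coprime (Dvd.intro_left 2 rfl : mo ∣ 2 * mo) hm ht
    rw [← SW_congr _ htt]
    have hs : OddDist (fun a : ZMod (2 * mo) =>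
        saw (((ZMod.unitOfCoprime t' ht' : (ZMod (2 * mo))ˣ) : ZMod (2 * mo)) * a)) := by
      constructor
      · intro a; simp only [mul_neg, saw_neg]
      · intro a ha
        apply saw_half
        rw [← mul_add, ha, mul_zero]
      · intro p d' _ hpd a
        exact saw_dist_unit hpd _ a
    have h1 := half_reduce hodd hs A
    rw [← hA'] at h1
    have h2 : (A.map fun a : ℕ => saw (((ZMod.unitOfCoprime t' ht' : (ZMod (2 * mo))ˣ) :
        ZMod (2 * mo)) * ((a : ℕ) : ZMod (2 * mo)))).sum = SW (2 * mo) A t' := by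
      unfold Y2.SW
      congr 1
      apply Multiset.map_congr rfl
      intro a _
      rw [ZMod.coe_unitOfCoprime]
      push_cast
      rfl
    have h3 : (A'.map fun b : ℕ => saw (((ZMod.unitOfCoprime t' ht' : (ZMod (2 * mo))ˣ) :
        ZMod (2 * mo)) * ((2 * b : ℕ) : ZMod (2 * mo)))).sum = 2 * SW mo A' t' := by
      unfold Y2.SW
      rw [← Multiset.sum_map_mul_left]
      congr 1
      apply Multiset.map_congr rfl
      intro a _
      rw [ZMod.coe_unitOfCoprime]
      have h4 := saw_mul_level hm rfl (t' * a) (q := 2) (d := mo)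
      rw [Nat.cast_ofNat (R := ℤ)] at h4
      rw [← h4]
      congr 1
      push_cast
      ring
    rw [h2, h3, hrel t' ht'] at h1
    omega
  have hcard' : Multiset.card A' ≤ 2 * K := by
    have h1 : Multiset.card (A.filter fun a => 2 ∣ a) + Multiset.card (A.filter fun a => ¬ 2 ∣ a) =
        Multiset.card A := by
      rw [← Multiset.card_add, Multiset.filter_add_not]
    have h2 : Multiset.card A' = Multiset.card (A.filter fun a => 2 ∣ a) +
        Multiset.card (A.filter fun a => ¬ 2 ∣ a) + Multiset.card (A.filter fun a => ¬ 2 ∣ a) := by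
      rw [hA', Multiset.card_add, Multiset.card_add, Multiset.card_map, Multiset.card_map]
    omega
  -- remove the zero entries
  have hsum : (A'.map fun b : ℕ => C ((2 * b : ℕ) : ZMod (2 * mo))).sum =
      ((A'.filter fun a => ¬ mo ∣ a).map fun b : ℕ => C ((2 * b : ℕ) : ZMod (2 * mo))).sum := by
    have h0 : C 0 = 0 := hC.half 0 (by simp)
    clear hrel' hcard' hA'
    induction A' using Multiset.induction_on with
    | empty => simp
    | cons a A ih =>
      by_cases h : mo ∣ a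
      · rw [Multiset.filter_cons_of_neg (p := fun a => ¬ mo ∣ a) _ (by simpa using h),
          Multiset.map_cons, Multiset.sum_cons, ih]
        have h1 : ((2 * a : ℕ) : ZMod (2 * mo)) = 0 := by
          rw [ZMod.natCast_eq_zero_iff]; exact Nat.mul_dvd_mul_left 2 h
        rw [h1, h0, zero_add]
      · rw [Multiset.filter_cons_of_pos (p := fun a => ¬ mo ∣ a) _ h, Multiset.map_cons,
          Multiset.sum_cons, Multiset.map_cons, Multiset.sum_cons, ih]
  rw [hsum]
  exact main_zero mo hodd hCond _ ((Multiset.card_le_card (Multiset.filter_le _ _)).trans hcard')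
    (fun a ha => (Multiset.mem_filter.mp ha).2)
    (fun t ht => by rw [← SW_filter hmo]; exact hrel' t ht) Q C hC hK

/-- twice an odd degree, at a degree given by an equation -/
theorem even2_key {K mo m : ℕ} (hodd : mo % 2 = 1) (hCond : Cond (2 * K) mo) (hm : m = 2 * mo)
    [NeZero m] (s : Multiset (ZMod m)) (hs : IsHodge m s) (hcard : Multiset.card s ≤ K) :
    ((s.map ZMod.val).map fun a : ℕ =>
      cQ m (Cv.SurfaceOrCurveProduct m) ((a : ℕ) : ZMod m)).sum = 0 := by
  subst hm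
  exact even2_zero hodd hCond (s.map ZMod.val) (by rwa [Multiset.card_map])
    (fun t ht => saw_rel s hs t ht) _ _ cQ_oddDist (kills2_cQ hodd)

/-- **Even degrees.** -/
theorem main_even {K d e : ℕ} (hK : 1 ≤ K) (h2 : 2 ∣ d) (hg : Cv.GoodDegree2 d)
    (hm : d * e ≠ 0) (hbig : ∀ q, q.Prime → q ∣ e → 2 * K + 2 ≤ q)
    (hthree : 3 ∣ d → ∀ q, q.Prime → q ∣ e → q ≤ 4 * K + 1 →
      q ∈ ({5, 7, 11, 13, 17, 19} : Finset ℕ))
    (s : Multiset (ZMod (d * e))) (hs : IsHodge (d * e) s) (hcard : Multiset.card s ≤ K)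
    (hne : s ≠ 0) : Generated (d * e) (Cv.SurfaceOrCurveProduct (d * e)) s := by
  have hN : NeZero (d * e) := ⟨hm⟩
  have key : ((s.map ZMod.val).map fun a : ℕ =>
      cQ (d * e) (Cv.SurfaceOrCurveProduct (d * e)) ((a : ℕ) : ZMod (d * e))).sum = 0 := by
    by_cases h4 : 4 ∣ d
    · exact even4_zero hK h4 hg e hm hbig hthree (s.map ZMod.val) (by rwa [Multiset.card_map])
        (fun t ht => saw_rel s hs t ht) _ _ cQ_oddDist (Cv.killsC_cQ hm)
    · obtain ⟨n, hn⟩ := h2
      have hn1 : n % 2 = 1 := by omega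
      have he0 : e ≠ 0 := by rintro rfl; exact hm (mul_zero d)
      have he1 : e % 2 = 1 := by
        by_contra h
        have := hbig 2 Nat.prime_two (by omega)
        omega
      have hodd : (n * e) % 2 = 1 := by
        rw [← Nat.odd_iff, Nat.odd_mul]; exact ⟨Nat.odd_iff.mpr hn1, Nat.odd_iff.mpr he1⟩
      have hm2 : d * e = 2 * (n * e) := by rw [hn]; ring
      rw [hn] at hg hthree
      have hcond := cond_two hn1 he1 hg hbig hthree
      exact even2_key hodd hcond hm2 s hs hcard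
  rw [Multiset.map_map] at key
  have h2' : (s.map (cQ (d * e) (Cv.SurfaceOrCurveProduct (d * e)))).sum = 0 := by
    rw [← key]
    congr 1
    apply Multiset.map_congr rfl
    intro a _
    simp only [Function.comp_apply]
    rw [ZMod.natCast_zmod_val]
  rw [cQ_sum, QuotientAddGroup.eq_zero_iff] at h2'
  exact generated_of_mem_LL Cv.base_good Cv.base_neg hs.1 hs.2.1 hne h2'

end Pool.Agent.J4.H26.Ev
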