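import Pool.Agent.J4.H26.Od.Up

/-!
Extension of rational distributions to higher levels, the prime two included.
-/

set_option autoImplicit false

namespace Pool.Agent.J4.H26.Ev

open Finset Pool.Agent.H916R2 Pool.Agent.Y2 Pool.Agent.J4.H26.Od

section

variable {q M r s : ℕ} {C : ℕ → ℚ}

/-- the absolute values of the extension, for a divisor of the level -/
lemma up1_bound_dvd (hr : r.Prime) (hrM : r ∣ M) (I : Multiset ℕ) (hI : ∀ κ ∈ I, ¬ r ∣ κ) {B : ℚ}
    (hB0 : 0 ≤ B) (hB : ∀ x, (I.map fun κ => |C (κ * x)|).sum ≤ B) (x : ℕ) :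
    (I.map fun κ => |up1 r M s C (κ * x)|).sum ≤ B := by
  have hr0 : 0 < r := hr.pos
  have hr3' : (2 : ℚ) ≤ r := by exact_mod_cast hr.two_le
  by_cases h : r ∣ x
  · refine le_trans (le_of_eq ?_) (hB (x / r))
    congr 1
    apply Multiset.map_congr rfl
    intro κ _
    rw [up1, if_pos (h.mul_left κ), Nat.mul_div_assoc _ h]
  · have h1 : ∀ κ ∈ I, ¬ r ∣ κ * x := by
      intro κ hκ h2
      rcases (Nat.Prime.dvd_mul hr).mp h2 with h3 | h3
      · exact hI κ hκ h3
      · exact h h3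
    have h2 : (I.map fun κ => |up1 r M s C (κ * x)|).sum =
        (1 / r) * (I.map fun κ => |C (κ * x)|).sum := by
      rw [← Multiset.sum_map_mul_left]
      congr 1
      apply Multiset.map_congr rfl
      intro κ hκ
      rw [up1, if_neg (h1 κ hκ), if_pos hrM, abs_div, abs_of_nonneg (by positivity : (0 : ℚ) ≤ r)]
      ring
    rw [h2]
    calc (1 / (r : ℚ)) * (I.map fun κ => |C (κ * x)|).sum ≤ (1 / r) * B :=
          mul_le_mul_of_nonneg_left (hB x) (by positivity)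
      _ ≤ B := by
          rw [div_mul_eq_mul_div, one_mul, div_le_iff₀ (by linarith)]
          nlinarith

/-- the absolute values of the extension for the prime two -/
lemma up1_bound_two (h2M : ¬ 2 ∣ M) (I : Multiset ℕ) (hI : ∀ κ ∈ I, ¬ 2 ∣ κ) {B : ℚ}
    (hB0 : 0 ≤ B) (hB : ∀ x, (I.map fun κ => |C (κ * x)|).sum ≤ B) (x : ℕ) :
    (I.map fun κ => |up1 2 M s C (κ * x)|).sum ≤ 2 * B := by
  by_cases h : 2 ∣ x
  · refine le_trans ?_ ((hB (x / 2)).trans (by linarith))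
    refine le_of_eq ?_
    congr 1
    apply Multiset.map_congr rfl
    intro κ _
    rw [up1, if_pos (h.mul_left κ), Nat.mul_div_assoc _ h]
  · have h1 : ∀ κ ∈ I, ¬ 2 ∣ κ * x := by
      intro κ hκ h2
      rcases (Nat.Prime.dvd_mul Nat.prime_two).mp h2 with h3 | h3
      · exact hI κ hκ h3
      · exact h h3
    have h2 : (I.map fun κ => |up1 2 M s C (κ * x)|).sum ≤
        (I.map fun κ => |C (κ * x)|).sum + (I.map fun κ => |C (κ * (s * x))|).sum := by
      rw [← Multiset.sum_map_add]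
      apply Multiset.sum_map_le_sum_map
      intro κ hκ
      rw [up1, if_neg (h1 κ hκ), if_neg h2M, show s * (κ * x) = κ * (s * x) by ring]
      have h3 : ((2 : ℕ) : ℚ) - 1 = 1 := by norm_num
      rw [h3, div_one]
      exact abs_sub _ _
    have h3 := hB x
    have h4 := hB (s * x)
    linarith

end

/-- **Extension** without loss. -/
theorem exists_up' {q : ℕ} (hq : q.Prime) : ∀ k M : ℕ, k ≠ 0 → M ≠ 0 → q ∣ M →
    (∀ r, r.Prime → r ∣ k → r ≠ q ∧ (3 ≤ r ∨ r ∣ M)) → ∀ (C : ℕ → ℚ), TD q M (PO q M) C →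
    ∀ (g : ℕ), (∀ x, C x ≠ 0 → Nat.gcd x M ∣ g) →
    ∀ (I : Multiset ℕ), (∀ κ ∈ I, Nat.Coprime κ k) → ∀ (B : ℚ), 0 ≤ B →
    (∀ x, (I.map fun κ => |C (κ * x)|).sum ≤ B) →
    ∃ C' : ℕ → ℚ, TD q (k * M) (PO q (k * M)) C' ∧ (∀ x, C' (k * x) = C x) ∧
      (∀ x, C' x ≠ 0 → Nat.gcd x (k * M) ∣ k * g) ∧
      (∀ x, (I.map fun κ => |C' (κ * x)|).sum ≤ B) := by
  intro k
  induction k using Nat.strong_induction_on with
  | _ k ih =>
  intro M hk hM hqM hpr C hC g hg I hI B hB0 hB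
  by_cases hk1 : k = 1
  · subst hk1
    refine ⟨C, by rwa [one_mul], fun x => by rw [one_mul], fun x hx => ?_, hB⟩
    rw [one_mul, one_mul]
    exact hg x hx
  · obtain ⟨r, hr, l, hl⟩ := Nat.exists_prime_and_dvd hk1
    obtain ⟨hrq, hr3⟩ := hpr r hr ⟨l, hl⟩
    have hl0 : l ≠ 0 := by rintro rfl; rw [mul_zero] at hl; exact hk hl
    have hlk : l < k := by
      rw [hl]
      have h1 := hr.two_le
      have : 0 < l := Nat.pos_of_ne_zero hl0
      nlinarith
    obtain ⟨s, hs⟩ : ∃ s, ¬ r ∣ M → r * s ≡ 1 [MOD M] := by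
      by_cases h : r ∣ M
      · exact ⟨0, fun h' => absurd h h'⟩
      · obtain ⟨s, _, hs⟩ := Nat.exists_mul_mod_eq_of_coprime 1
          ((Nat.Prime.coprime_iff_not_dvd hr).mpr h) hM
        exact ⟨s, fun _ => hs⟩
    have hrc : ∀ κ ∈ I, ¬ r ∣ κ := by
      intro κ hκ h
      have h1 := hI κ hκ
      rw [hl] at h1
      have h2 : Nat.Coprime κ r := Nat.Coprime.coprime_mul_right_right h1
      have h3 : r ∣ Nat.gcd κ r := Nat.dvd_gcd h dvd_rfl
      rw [h2] at h3
      exact hr.one_lt.ne' (Nat.dvd_one.mp h3)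
    obtain ⟨C', h1, h2, h3, h4⟩ := ih l hlk (r * M) hl0 (mul_ne_zero hr.ne_zero hM)
      (hqM.mul_left r) (fun p hp hpl => by
        obtain ⟨h1, h2⟩ := hpr p hp (hl ▸ hpl.mul_left r)
        exact ⟨h1, h2.imp id fun h => h.mul_left r⟩)
      (up1 r M s C) (up1_td hq hr hrq hM hqM hr.two_le hs hC) (r * g)
      (up1_supp hr hs hg) I (fun κ hκ => by
        have := hI κ hκ
        rw [hl] at this
        exact Nat.Coprime.coprime_mul_left_right this) B hB0 (by
        rcases hr3 with h | h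
        · exact up1_bound hr h I hrc hB0 hB
        · exact up1_bound_dvd hr h I hrc hB0 hB)
    have e : l * (r * M) = k * M := by rw [hl]; ring
    rw [e] at h1 h3
    refine ⟨C', h1, fun x => ?_, fun x hx => ?_, h4⟩
    · rw [hl, show r * l * x = l * (r * x) by ring, h2, up1_mul hr.pos]
    · have := h3 x hx
      rwa [show l * (r * g) = k * g by rw [hl]; ring] at this

/-- **Extension** with a factor two. -/
theorem exists_up2 {q : ℕ} (hq : q.Prime) (hq2 : q ≠ 2) (k M : ℕ) (hk : k ≠ 0) (hM : M ≠ 0)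
    (hqM : q ∣ M) (hqk : ¬ q ∣ k) (C : ℕ → ℚ) (hC : TD q M (PO q M) C)
    (g : ℕ) (hg : ∀ x, C x ≠ 0 → Nat.gcd x M ∣ g)
    (I : Multiset ℕ) (hI : ∀ κ ∈ I, Nat.Coprime κ k) (B : ℚ) (hB0 : 0 ≤ B)
    (hB : ∀ x, (I.map fun κ => |C (κ * x)|).sum ≤ B) :
    ∃ C' : ℕ → ℚ, TD q (k * M) (PO q (k * M)) C' ∧ (∀ x, C' (k * x) = C x) ∧
      (∀ x, C' x ≠ 0 → Nat.gcd x (k * M) ∣ k * g) ∧
      (∀ x, (I.map fun κ => |C' (κ * x)|).sum ≤ 2 * B) := by
  have hprime : ∀ r, r.Prime → r ∣ k → r ≠ q := fun r _ hrk h => hqk (h ▸ hrk)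
  by_cases h2 : 2 ∣ k ∧ ¬ 2 ∣ M
  · obtain ⟨⟨l, hl⟩, h2M⟩ := h2
    have hl0 : l ≠ 0 := by rintro rfl; rw [mul_zero] at hl; exact hk hl
    obtain ⟨s, _, hs⟩ := Nat.exists_mul_mod_eq_of_coprime 1
      ((Nat.Prime.coprime_iff_not_dvd Nat.prime_two).mpr h2M) hM
    have hrc : ∀ κ ∈ I, ¬ 2 ∣ κ := by
      intro κ hκ h
      have h1 := hI κ hκ
      rw [hl] at h1
      have h2 : Nat.Coprime κ 2 := Nat.Coprime.coprime_mul_right_right h1
      have h3 : 2 ∣ Nat.gcd κ 2 := Nat.dvd_gcd h dvd_rfl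
      rw [h2] at h3
      omega
    obtain ⟨C', h1, h2, h3, h4⟩ := exists_up' hq l (2 * M) hl0 (mul_ne_zero two_ne_zero hM)
      (hqM.mul_left 2) (fun p hp hpl => by
        refine ⟨hprime p hp (hl ▸ hpl.mul_left 2), ?_⟩
        by_cases hp2 : p = 2
        · right; rw [hp2]; exact Dvd.intro _ rfl
        · left; have := hp.two_le; omega)
      (up1 2 M s C) (up1_td hq Nat.prime_two (Ne.symm hq2) hM hqM le_rfl (fun _ => hs) hC) (2 * g)
      (up1_supp Nat.prime_two (fun _ => hs) hg) I (fun κ hκ => by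
        have := hI κ hκ
        rw [hl] at this
        exact Nat.Coprime.coprime_mul_left_right this) (2 * B) (by linarith)
        (up1_bound_two h2M I hrc hB0 hB)
    have e : l * (2 * M) = k * M := by rw [hl]; ring
    rw [e] at h1 h3
    refine ⟨C', h1, fun x => ?_, fun x hx => ?_, h4⟩
    · rw [hl, show 2 * l * x = l * (2 * x) by ring, h2, up1_mul Nat.two_pos]
    · have := h3 x hx
      rwa [show l * (2 * g) = k * g by rw [hl]; ring] at this
  · obtain ⟨C', h1, h2, h3, h4⟩ := exists_up' hq k M hk hM hqM (fun r hr hrk => by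
        refine ⟨hprime r hr hrk, ?_⟩
        by_cases hp2 : r = 2
        · right
          rw [not_and_not_right] at h2
          rw [hp2]
          exact h2 (hp2 ▸ hrk)
        · left; have := hr.two_le; omega) C hC g hg I hI B hB0 hB
    exact ⟨C', h1, h2, h3, fun x => (h4 x).trans (by linarith)⟩

end Pool.Agent.J4.H26.Ev
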